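import Pool.Agent.H78.UN.Targets

/-! Assembly of the abstract theorem. -/

namespace Pool.Agent.H78.UN

open Finset

theorem ab (hADV : T_ADV) (hCNT : T_CNT) (hHC : T_HC) (hXA : T_XA) (hXB : T_XB) (hXU : T_XU)
    (hFRM : T_FRM) : T_AB := by
  classical
  intro n M k p e r l d hn hr hrk hl hlr hkd hM hkn h1 h2 h3 h4
  have hpos : 0 < Fintype.card (Fin M → (Fin k ↪ Fin n)) := by
    have : Nonempty (Fin k ↪ Fin n) := ⟨Fin.castLEEmb hkn⟩
    exact Fintype.card_pos
  obtain ⟨τ, hτ1, hτ5⟩ : ∃ τ : Fin M → (Fin k ↪ Fin n), E1 (scp τ) p e ∧ E5 (scp τ) p r l := by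
    by_contra hcon
    push Not at hcon
    have hA := hXA n M k p e h1
    have hB := hXB n M k p r l d hr hl hkd hM h2 h3
    have hsub : (Finset.univ : Finset (Fin M → (Fin k ↪ Fin n))) ⊆
        (Finset.univ.filter (fun τ => ¬ E1 (scp τ) p e)) ∪
          (Finset.univ.filter (fun τ => ¬ E5 (scp τ) p r l)) := by
      intro τ _
      by_cases h : E1 (scp τ) p e
      · exact Finset.mem_union_right _ (Finset.mem_filter.2 ⟨Finset.mem_univ _, hcon τ h⟩)
      · exact Finset.mem_union_left _ (Finset.mem_filter.2 ⟨Finset.mem_univ _, h⟩)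
    have hc := (Finset.card_le_card hsub).trans (Finset.card_union_le _ _)
    rw [Finset.card_univ] at hc
    omega
  obtain ⟨h, hh⟩ := hHC k (2 * l)
  obtain ⟨b, hb⟩ := hXU n M k _ τ h h4
  obtain ⟨I, F, hI, hF1, hF2, hF3, hF4⟩ := hFRM n M k _ l τ h b hh hb
  refine ⟨F, hF1, hF2, hF3, ?_⟩
  intro t m B q s D S Bl hB hq ht hD hBl hR
  obtain ⟨R⟩ := hR
  have hsck : ∀ c, (I.sc c).card = k := by
    intro c
    rw [hI]
    simp [scp]
  obtain ⟨P, W, hP, hbad⟩ := hADV (Fin n) M p r l t m B q s D S I F (by rw [hI]; exact hτ5)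
    (fun c => by rw [hsck c]; exact hrk) (by omega) hlr hq ht hD hF4 R
  have := hCNT (Fin n) M p e r k t (s + r * p + m * (kap r l * p)) B S Bl I.sc W R.o P
    (by rw [hI]; exact hτ1) hsck hP hB hBl hbad
  rwa [Fintype.card_fin] at this

end Pool.Agent.H78.UN
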