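import Pool.Agent.H78.UN.Steps

/-! The adversary. -/

namespace Pool.Agent.H78.UN

open Finset

theorem adv (hSTA : T_STA) (hSTE : T_STE) (hBAS : T_BAS) (hRES : T_RES) (hLEA : T_LEA) :
    T_ADV := by
  classical
  intro V _ _ M p r l t m B q s D S I F h5 hsc hl hlr hqp ht hD hF R
  obtain ⟨vr, hvr⟩ := R.root
  obtain ⟨W, hW⟩ : ∃ W : Fin S → Finset V, W = Function.update R.W vr ∅ := ⟨_, rfl⟩
  have hWr : W vr = ∅ := by rw [hW]; simp
  have hWs : ∀ v, (W v).card ≤ (R.W v).card := by
    intro v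
    rw [hW]
    by_cases hv : v = vr
    · subst hv; simp
    · rw [Function.update_of_ne hv]
  have hA : ∀ v, ∀ z ∈ R.A v, ∀ z' : V → Bool, (∀ x ∈ W v, z' x = z x ∨ z' x = R.o v x) →
      z' ∈ R.A v := by
    intro v z hz z' h
    by_cases hv : v = vr
    · subst hv; exact hvr z'
    · rw [hW, Function.update_of_ne hv] at h
      exact R.unate v z hz z' h
  have hP : ∀ v, ∃ Pv : Finset (Fin S), Pv.card ≤ B ∧
      ((∃ Q : Finset (Clause V), Q ⊆ F ∧ Q.card ≤ q ∧ ∀ z ∈ R.A v, ∃ C ∈ Q, Falsified C z) ∨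
      ((∀ a ∈ Pv, a < v ∧ ((W a).card ≤ s ∨ R.run a < R.run v)) ∧
        ∀ z ∈ R.A v, ∃ a ∈ Pv, z ∈ R.A a)) := by
    intro v
    rcases R.rule v with h | ⟨Pv, h1, h2, h3⟩
    · exact ⟨∅, by simp, Or.inl h⟩
    · refine ⟨Pv, h1, Or.inr ⟨fun a ha => ⟨(h2 a ha).1, ?_⟩, h3⟩⟩
      rcases (h2 a ha).2 with h | h
      · exact Or.inl ((hWs a).trans h)
      · exact Or.inr h
  choose P hPB hP using hP
  refine ⟨P, W, hPB, ?_⟩
  intro zs hG
  have hlt : ∀ {v : Fin S} {j i : ℕ}, R.run v + j + i * t ≤ D → i < m := by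
    intro v j i h
    by_contra h1
    have h2 := Nat.mul_le_mul_right t (not_lt.1 h1)
    omega
  have hff : ∀ i, i ≤ m → s + r * p + i * (kap r l * p) ≤ s + r * p + m * (kap r l * p) :=
    fun i hi => Nat.add_le_add_left (Nat.mul_le_mul_right _ hi) _
  -- distance after the phase
  have hdist : ∀ {v0 : Fin S} {z0 : V → Bool} {j i : ℕ} {v : Fin S} {U : Finset (Fin S)}
      {z : V → Bool} {J : Finset (Fin M)},
      State I.sc I.vio r (kap r l) R.A W R.o P v0 z0 j v U z J → j ≤ t → i < m →
      dis z0 zs ≤ s + r * p + i * (kap r l * p) →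
      dis z zs ≤ s + r * p + (i + 1) * (kap r l * p) := by
    intro v0 z0 j i v U z J hS hj hi hd
    have h1 := hG z0 (hd.trans (hff i hi.le)) v0 j hj _ hS.path J hS.cov
    have h2 := dis_tri z z0 zs
    have h3 := hS.dist
    have h4 : kap r l * J.card ≤ kap r l * p := Nat.mul_le_mul_left _ h1.le
    have h5 : (i + 1) * (kap r l * p) = i * (kap r l * p) + kap r l * p := by ring
    omega
  have key : ∀ v : Fin S, ∀ (v0 : Fin S) (z0 : V → Bool) (j i : ℕ) (U : Finset (Fin S))
      (z : V → Bool) (J : Finset (Fin M)),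
      State I.sc I.vio r (kap r l) R.A W R.o P v0 z0 j v U z J → j ≤ t →
      dis z0 zs ≤ s + r * p + i * (kap r l * p) → R.run v + j + i * t ≤ D → False := by
    intro v
    induction v using WellFoundedLT.induction with
    | ind v IH =>
      -- the case of a phase which is not finished
      have main : ∀ (v0 : Fin S) (z0 : V → Bool) (j i : ℕ) (U : Finset (Fin S))
          (z : V → Bool) (J : Finset (Fin M)),
          State I.sc I.vio r (kap r l) R.A W R.o P v0 z0 j v U z J → j < t →
          dis z0 zs ≤ s + r * p + i * (kap r l * p) → R.run v + j + i * t ≤ D → False := by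
        intro v0 z0 j i U z J hS hj hd hr
        have him := hlt hr
        rcases hP v with ⟨Q, hQ1, hQ2, hQ3⟩ | ⟨hp1, hp2⟩
        · exact hLEA V M p r l q S I F R.A W R.o P z0 v0 v j U z J Q h5 hl hlr hqp hA hF hS
            hQ1 hQ2 hQ3
        · obtain ⟨a, ha, hza⟩ := hp2 z hS.mem
          obtain ⟨hav, hcase⟩ := hp1 a ha
          rcases hcase with hlight | hheavy
          · have haU : a ∈ U := PS_sub hS.path (Finset.mem_insert_of_mem ha)
            have hB := hBAS V M r l (kap r l) S I R.A W R.o P z0 v0 v a j U z J hS haU hza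
            have hd2 := (hdist hS hj.le him hd).trans (hff (i + 1) him)
            obtain ⟨z', hB', hd'⟩ := hRES V M p r l t _ s S I R.A W R.o P zs z a hA hG hd2 hB hlight
            obtain ⟨z2, J2, hS2⟩ := hSTA V M p r l t _ S I R.A W R.o P zs z' a h5 hl hlr hA hG
              (hd'.trans (Nat.le_add_right _ _)) hB'
            refine IH a hav a z' 0 0 _ z2 J2 hS2 (Nat.zero_le _) ?_ ?_
            · simpa using hd'
            · simpa using R.run_le a
          · obtain ⟨z', J', hS'⟩ := hSTE V M p r l t _ S I R.A W R.o P zs z0 v0 v a j U z J h5 hl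
              hlr hA hG (hd.trans (hff i him.le)) hj hS ha hza
            exact IH a hav v0 z0 (j + 1) i _ z' J' hS' hj hd (by omega)
      intro v0 z0 j i U z J hS hj hd hr
      rcases Nat.lt_or_eq_of_le hj with hj' | hj'
      · exact main v0 z0 j i U z J hS hj' hd hr
      · have him := hlt hr
        have hvU : v ∈ U := PS_sub hS.path (Finset.mem_insert_self _ _)
        have hB := hBAS V M r l (kap r l) S I R.A W R.o P z0 v0 v v j U z J hS hvU hS.mem
        have hd2 := hdist hS hj him hd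
        obtain ⟨z2, J2, hS2⟩ := hSTA V M p r l t _ S I R.A W R.o P zs z v h5 hl hlr hA hG
          (hd2.trans (hff (i + 1) him)) hB
        refine main v z 0 (i + 1) _ z2 J2 hS2 ht hd2 ?_
        have h5 : (i + 1) * t = i * t + t := by ring
        omega
  have hBr : Base I.sc I.vio r R.A W R.o vr zs := by
    refine ⟨hvr zs, ∅, Cov.nil, ?_, fun c hc => absurd hc (Finset.notMem_empty _)⟩
    intro u hu c _
    rw [Finset.mem_singleton.1 hu, hWr, VJ_empty]
    simpa [ag] using hsc c
  obtain ⟨z2, J2, hS2⟩ := hSTA V M p r l t _ S I R.A W R.o P zs zs vr h5 hl hlr hA hG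
    (by rw [dis_self]; exact Nat.zero_le _) hBr
  exact key vr vr zs 0 0 _ z2 J2 hS2 (Nat.zero_le _) (by rw [dis_self]; exact Nat.zero_le _)
    (by simpa using R.run_le vr)

end Pool.Agent.H78.UN
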