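import Pool.Agent.H78.UN.Targets

/-! Basic lemmas. -/

set_option linter.unusedSectionVars false

namespace Pool.Agent.H78.UN

open Finset

section
variable {V : Type} [DecidableEq V] {M S : ℕ} {sc : Fin M → Finset V} {r : ℕ}
  {W : Fin S → Finset V} {o : Fin S → V → Bool} {U U' : Finset (Fin S)} {z z' : V → Bool}
  {J J' : Finset (Fin M)}

theorem mem_VJ {x : V} : x ∈ VJ sc J ↔ ∃ c ∈ J, x ∈ sc c := by simp [VJ]

theorem VJ_mono (h : J ⊆ J') : VJ sc J ⊆ VJ sc J' := Finset.biUnion_subset_biUnion_of_subset_left _ h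

theorem VJ_empty : VJ sc (∅ : Finset (Fin M)) = ∅ := by simp [VJ]

theorem VJ_insert {c : Fin M} : VJ sc (insert c J) = sc c ∪ VJ sc J := by simp [VJ]

theorem sc_sub_VJ {c : Fin M} (h : c ∈ J) : sc c ⊆ VJ sc J := Finset.subset_biUnion_of_mem _ h

theorem mem_ag {W : Finset V} {o z : V → Bool} {x : V} : x ∈ ag W o z ↔ x ∈ W ∧ z x = o x := by
  simp [ag]

theorem Cov.mono (h : Cov sc r W o U z J) (hU : U ⊆ U') : Cov sc r W o U' z J := by
  induction h with
  | nil => exact Cov.nil
  | cons _ h2 h3 h4 ih => exact Cov.cons ih h2 (hU h3) h4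

theorem ag_congr {W : Finset V} {o z z' : V → Bool} (h : ∀ x ∈ W, z x = z' x) :
    ag W o z = ag W o z' := by
  ext x
  rw [mem_ag, mem_ag]
  constructor
  · rintro ⟨h1, h2⟩
    exact ⟨h1, by rw [← h x h1]; exact h2⟩
  · rintro ⟨h1, h2⟩
    exact ⟨h1, by rw [h x h1]; exact h2⟩

theorem Cov.congr (h : Cov sc r W o U z J) (hU : ∀ u ∈ U, ag (W u) (o u) z = ag (W u) (o u) z') :
    Cov sc r W o U z' J := by
  induction h with
  | nil => exact Cov.nil
  | cons _ h2 h3 h4 ih =>
    refine Cov.cons ih h2 h3 ?_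
    rw [← hU _ h3]
    exact h4

theorem Clo.congr (h : Clo sc r W o U z J) (hU : ∀ u ∈ U, ag (W u) (o u) z = ag (W u) (o u) z') :
    Clo sc r W o U z' J := by
  intro u hu c hc
  rw [← hU u hu]
  exact h u hu c hc

theorem ag_union (h : ∀ x, x ∉ VJ sc J → z x = z' x) {W : Finset V} {o : V → Bool} :
    ag W o z ∪ VJ sc J = ag W o z' ∪ VJ sc J := by
  ext x
  simp only [Finset.mem_union, mem_ag]
  by_cases hx : x ∈ VJ sc J
  · simp [hx]
  · simp [hx, h x hx]

end

section
variable {V : Type} [Fintype V] [DecidableEq V]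

theorem dis_self (z : V → Bool) : dis z z = 0 := by simp [dis]

theorem dis_comm (z z' : V → Bool) : dis z z' = dis z' z := by
  unfold dis
  congr 1
  ext x
  simp [ne_comm]

theorem dis_tri (a b c : V → Bool) : dis a c ≤ dis a b + dis b c := by
  unfold dis
  refine le_trans (Finset.card_le_card ?_) (Finset.card_union_le _ _)
  intro x hx
  simp only [Finset.mem_filter, Finset.mem_univ, true_and, Finset.mem_union] at hx ⊢
  by_contra h
  rw [not_or, not_not, not_not] at h
  exact hx (h.1.trans h.2)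

theorem dis_le {a b : V → Bool} {Y : Finset V} (h : ∀ x, x ∉ Y → a x = b x) :
    dis a b ≤ Y.card := by
  unfold dis
  refine Finset.card_le_card ?_
  intro x hx
  by_contra h2
  exact (Finset.mem_filter.1 hx).2 (h x h2)

theorem flp_of_mem {z : V → Bool} {Y : Finset V} {x : V} (h : x ∈ Y) : flp z Y x = !(z x) := by
  simp [flp, h]

theorem flp_of_notMem {z : V → Bool} {Y : Finset V} {x : V} (h : x ∉ Y) : flp z Y x = z x := by
  simp [flp, h]

theorem dis_flp (z : V → Bool) (Y : Finset V) : dis (flp z Y) z ≤ Y.card :=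
  dis_le fun _ hx => flp_of_notMem hx

end

theorem PS_sub {S : ℕ} {P : Fin S → Finset (Fin S)} {v0 : Fin S} {j : ℕ}
    {y : Fin S × Finset (Fin S)} (h : y ∈ PS P v0 j) : insert y.1 (P y.1) ⊆ y.2 := by
  cases j with
  | zero =>
    simp only [PS, Finset.mem_singleton] at h
    subst h
    exact Finset.Subset.refl _
  | succ j =>
    simp only [PS, Finset.mem_biUnion, Finset.mem_image] at h
    obtain ⟨y', -, a, -, rfl⟩ := h
    exact Finset.subset_union_right

/-- A flip outside the certificate keeps the line falsified. -/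
theorem mem_flp {V : Type} [DecidableEq V] {S : ℕ} {A : Fin S → Set (V → Bool)}
    {W : Fin S → Finset V} {o : Fin S → V → Bool}
    (hA : ∀ v, ∀ z ∈ A v, ∀ z' : V → Bool, (∀ x ∈ W v, z' x = z x ∨ z' x = o v x) → z' ∈ A v)
    {v : Fin S} {z : V → Bool} {Y : Finset V} (hz : z ∈ A v)
    (hY : ∀ x ∈ Y, x ∉ ag (W v) (o v) z) : flp z Y ∈ A v := by
  refine hA v z hz _ ?_
  intro x hx
  by_cases h : x ∈ Y
  · right
    have h1 : z x ≠ o v x := fun h2 => hY x h (mem_ag.2 ⟨hx, h2⟩)
    unfold flp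
    rw [if_pos h]
    revert h1
    cases z x <;> cases o v x <;> simp
  · left
    simp [flp, h]

/-- A maximal exposed set is closed. -/
theorem mx : T_MAX := by
  classical
  intro V _ M r S sc W o U z J hJ
  obtain ⟨J', hJ', hmax⟩ := Finset.exists_max_image
    ((Finset.univ : Finset (Finset (Fin M))).filter
      (fun J' => J ⊆ J' ∧ Cov sc r W o U z J')) Finset.card
      ⟨J, Finset.mem_filter.2 ⟨Finset.mem_univ _, Finset.Subset.refl _, hJ⟩⟩
  obtain ⟨-, h1, h2⟩ := Finset.mem_filter.1 hJ'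
  refine ⟨J', h1, h2, ?_⟩
  intro u hu c hc
  by_contra h
  have h3 := hmax (insert c J') (Finset.mem_filter.2 ⟨Finset.mem_univ _,
    h1.trans (Finset.subset_insert _ _), Cov.cons h2 hc hu (not_le.1 h)⟩)
  rw [Finset.card_insert_of_notMem hc] at h3
  omega

/-- The same among the subsets of a given set. -/
theorem mx_sub {V : Type} [DecidableEq V] {M r S : ℕ} {sc : Fin M → Finset V}
    {W : Fin S → Finset V} {o : Fin S → V → Bool} {U : Finset (Fin S)} {z : V → Bool}
    (J : Finset (Fin M)) : ∃ J0, J0 ⊆ J ∧ Cov sc r W o U z J0 ∧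
      ∀ u ∈ U, ∀ c ∈ J, c ∉ J0 → r ≤ (sc c \ (ag (W u) (o u) z ∪ VJ sc J0)).card := by
  classical
  obtain ⟨J', hJ', hmax⟩ := Finset.exists_max_image
    ((Finset.univ : Finset (Finset (Fin M))).filter
      (fun J' => J' ⊆ J ∧ Cov sc r W o U z J')) Finset.card
      ⟨∅, Finset.mem_filter.2 ⟨Finset.mem_univ _, Finset.empty_subset _, Cov.nil⟩⟩
  obtain ⟨-, h1, h2⟩ := Finset.mem_filter.1 hJ'
  refine ⟨J', h1, h2, ?_⟩
  intro u hu c hcJ hc
  by_contra h
  have h3 := hmax (insert c J') (Finset.mem_filter.2 ⟨Finset.mem_univ _,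
    Finset.insert_subset hcJ h1, Cov.cons h2 hc hu (not_le.1 h)⟩)
  rw [Finset.card_insert_of_notMem hc] at h3
  omega

end Pool.Agent.H78.UN
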