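import Pool.Agent.H78.UN.Basic

/-! The counts. -/

set_option linter.unusedSectionVars false

namespace Pool.Agent.H78.UN

open Finset

/-- The number of paths. -/
theorem psc : T_PSC := by
  intro S B j P v0 hB
  induction j with
  | zero =>
    refine ⟨by simp [PS], ?_⟩
    intro y hy
    simp only [PS, Finset.mem_singleton] at hy
    subst hy
    have h1 := Finset.card_insert_le v0 (P v0)
    have h2 := hB v0
    simp only
    omega
  | succ j ih =>
    obtain ⟨ih1, ih2⟩ := ih
    constructor
    · simp only [PS]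
      refine Finset.card_biUnion_le.trans ?_
      calc ∑ y ∈ PS P v0 j, ((P y.1).image (fun a => (a, y.2 ∪ insert a (P a)))).card
          ≤ ∑ y ∈ PS P v0 j, B := Finset.sum_le_sum fun y _ => Finset.card_image_le.trans (hB _)
        _ = (PS P v0 j).card * B := by rw [Finset.sum_const, smul_eq_mul]
        _ ≤ B ^ j * B := Nat.mul_le_mul_right _ ih1
        _ = B ^ (j + 1) := (pow_succ _ _).symm
    · intro y hy
      simp only [PS, Finset.mem_biUnion, Finset.mem_image] at hy
      obtain ⟨y', hy', a, ha, rfl⟩ := hy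
      have h1 := ih2 y' hy'
      have h2 := Finset.card_union_le y'.2 (insert a (P a))
      have h3 := Finset.card_insert_le a (P a)
      have h4 := hB a
      have h5 : (j + 1 + 1) * (B + 1) = (j + 1) * (B + 1) + (B + 1) := by ring
      simp only
      omega

/-- The size of a Hamming ball. -/
theorem bal : T_BAL := by
  classical
  intro V _ _ r q w hq
  have h1 : ∑ z : V → Bool, ∏ u, (if w u = z u then q else 1) = (q + 1) ^ Fintype.card V := by
    have h2 := Finset.prod_univ_sum (fun _ : V => (Finset.univ : Finset Bool))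
      (fun u s => if w u = s then q else 1)
    rw [Fintype.piFinset_univ] at h2
    rw [← h2]
    have h3 : ∀ u : V, ∑ s : Bool, (if w u = s then q else 1) = q + 1 := by
      intro u
      rw [Fintype.sum_bool]
      cases w u
      · simp [add_comm]
      · simp
    rw [Finset.prod_congr rfl fun u _ => h3 u, Finset.prod_const]
    rfl
  rw [← h1, Finset.mul_sum, ← smul_eq_mul (a := Finset.card _), ← Finset.sum_const]
  refine le_trans (Finset.sum_le_sum fun z hz => ?_)
    (Finset.sum_le_sum_of_subset (Finset.subset_univ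
      (Finset.univ.filter (fun z : V → Bool => dis w z ≤ r))))
  have hz' := (Finset.mem_filter.1 hz).2
  have h4 : ∏ u, (if w u = z u then q else 1) = q ^ (Finset.univ.filter (fun u => w u = z u)).card := by
    rw [Finset.prod_ite, Finset.prod_const, Finset.prod_const_one, mul_one]
  rw [h4, ← pow_add]
  refine Nat.pow_le_pow_right hq ?_
  have h5 := Finset.card_filter_add_card_filter_not (s := (Finset.univ : Finset V))
    (fun u => w u = z u)
  rw [Finset.card_univ] at h5
  have h6 : (Finset.univ.filter (fun u => ¬ (w u = z u))).card ≤ r := hz'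
  omega

/-- The final count. -/
theorem cnt (hPSC : T_PSC) (hSC : T_SC) : T_CNT := by
  classical
  intro V _ _ M p e r k t f B S Bl sc W o P h1 hk hP hB hBl hbad
  set G : ℕ := (M * ((t + 1) * (B + 1)) * Cr k r ^ 2) ^ p * 2 ^ e with hG
  set Z : Finset (Fin S) → Finset (V → Bool) := fun U =>
    Finset.univ.filter (fun z0 => ∃ J, Cov sc r W o U z0 J ∧ p ≤ J.card) with hZ
  have hZc : ∀ v0 : Fin S, ∀ j ≤ t, ∀ y ∈ PS P v0 j, (Z y.2).card ≤ G := by
    intro v0 j hj y hy
    refine (hSC V M p e r k S sc W o y.2 h1 hk _ fun z hz => (Finset.mem_filter.1 hz).2).trans ?_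
    refine Nat.mul_le_mul_right _ (Nat.pow_le_pow_left ?_ _)
    refine Nat.mul_le_mul_right _ (Nat.mul_le_mul_left _ ?_)
    exact ((hPSC S B j P v0 hP).2 y hy).trans (Nat.mul_le_mul_right _ (by omega))
  have hsub : (Finset.univ : Finset (V → Bool)) ⊆ (Finset.univ : Finset (Fin S)).biUnion
      (fun v0 => (Finset.range (t + 1)).biUnion (fun j => (PS P v0 j).biUnion
        (fun y => (Z y.2).biUnion (fun z0 => Finset.univ.filter (fun zs => dis z0 zs ≤ f))))) := by
    intro zs _
    have h := hbad zs
    unfold Good at h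
    push Not at h
    obtain ⟨z0, hz0, v0, j, hj, y, hy, J, hJ, hp⟩ := h
    refine Finset.mem_biUnion.2 ⟨v0, Finset.mem_univ _, ?_⟩
    refine Finset.mem_biUnion.2 ⟨j, Finset.mem_range.2 (by omega), ?_⟩
    refine Finset.mem_biUnion.2 ⟨y, hy, ?_⟩
    refine Finset.mem_biUnion.2 ⟨z0, Finset.mem_filter.2 ⟨Finset.mem_univ _, J, hJ, hp⟩, ?_⟩
    exact Finset.mem_filter.2 ⟨Finset.mem_univ _, hz0⟩
  have hcard : (Finset.univ : Finset (V → Bool)).card = 2 ^ Fintype.card V := by
    rw [Finset.card_univ, Fintype.card_fun, Fintype.card_bool]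
  rw [← hcard]
  refine (Finset.card_le_card hsub).trans ?_
  have hy : ∀ v0 : Fin S, ∀ j ≤ t, ∀ y ∈ PS P v0 j,
      ((Z y.2).biUnion (fun z0 => Finset.univ.filter (fun zs => dis z0 zs ≤ f))).card ≤ G * Bl := by
    intro v0 j hj y hy
    refine Finset.card_biUnion_le.trans ?_
    calc ∑ z0 ∈ Z y.2, (Finset.univ.filter (fun zs => dis z0 zs ≤ f)).card
        ≤ ∑ z0 ∈ Z y.2, Bl := Finset.sum_le_sum fun z0 _ => hBl z0
      _ = (Z y.2).card * Bl := by rw [Finset.sum_const, smul_eq_mul]
      _ ≤ G * Bl := Nat.mul_le_mul_right _ (hZc v0 j hj y hy)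
  have hj : ∀ v0 : Fin S, ∀ j ≤ t, ((PS P v0 j).biUnion (fun y => (Z y.2).biUnion
      (fun z0 => Finset.univ.filter (fun zs => dis z0 zs ≤ f)))).card ≤ B ^ t * (G * Bl) := by
    intro v0 j hj
    refine Finset.card_biUnion_le.trans ((Finset.sum_le_sum fun y h => hy v0 j hj y h).trans ?_)
    rw [Finset.sum_const, smul_eq_mul]
    exact Nat.mul_le_mul_right _ (((hPSC S B j P v0 hP).1).trans (Nat.pow_le_pow_right hB hj))
  have hv : ∀ v0 : Fin S, ((Finset.range (t + 1)).biUnion (fun j => (PS P v0 j).biUnion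
      (fun y => (Z y.2).biUnion (fun z0 => Finset.univ.filter (fun zs => dis z0 zs ≤ f))))).card ≤
      (t + 1) * (B ^ t * (G * Bl)) := by
    intro v0
    refine Finset.card_biUnion_le.trans ((Finset.sum_le_sum fun j h => hj v0 j
      (by rw [Finset.mem_range] at h; omega)).trans ?_)
    rw [Finset.sum_const, smul_eq_mul, Finset.card_range]
  refine Finset.card_biUnion_le.trans ((Finset.sum_le_sum fun v0 _ => hv v0).trans ?_)
  rw [Finset.sum_const, smul_eq_mul, Finset.card_univ, Fintype.card_fin]
  apply le_of_eq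
  ring

end Pool.Agent.H78.UN
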