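import Pool.Agent.H78.UN.Num
import Pool.Agent.H69.RD.P2
import Pool.Agent.H74.RD.P1

/-! The conditions of the abstract theorem. -/

namespace Pool.Agent.H78.UN

open Finset

/-- The parameters. -/
def pd (A j : ℕ) : ℕ := 18 * j * A ^ 2
def pl (A j k : ℕ) : ℕ := k / (4 * pd A j * (Nat.log 2 k + 1))
def pr (A j k : ℕ) : ℕ := k / pd A j
def pp (A n k : ℕ) : ℕ := 8 * A * n / k + 1
def pM (A j n k : ℕ) : ℕ := (k + 1) ^ (2 * pl A j k) * (n + 1)
/-- A constant larger than everything. -/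
def pT (A j : ℕ) : ℕ := 2 ^ (8 * pd A j + 6) * (18 * A) * (4 * pd A j) + 400000 * j ^ 2 * A ^ 6

theorem facts {A j T n k : ℕ} (hA : 1 ≤ A) (hj : 1 ≤ j) (hT : pT A j ≤ T) (hn : 2 ≤ n)
    (hk1 : 2 ^ T * Nat.log 2 n ≤ k) (hk2 : 2 ^ T * k ≤ n) :
    1 ≤ Nat.log 2 n ∧ 400000 * j ^ 2 * A ^ 6 ≤ T ∧ T < 2 ^ T ∧ 2 ^ T ≤ k ∧
    T ≤ Nat.log 2 k ∧ 8 * A * n < pp A n k * k ∧ pp A n k * k ≤ 9 * A * n ∧
    2 ^ (8 * pd A j + 6) * (9 * A) ≤ pl A j k ∧
    pl A j k * (4 * pd A j * (Nat.log 2 k + 1)) ≤ k ∧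
    k < (pl A j k + 1) * (4 * pd A j * (Nat.log 2 k + 1)) := by
  have h1 : 1 ≤ Nat.log 2 n := Nat.log_pos (by norm_num) hn
  have hTT : T < 2 ^ T := Nat.lt_two_pow_self
  have hbig : 400000 * j ^ 2 * A ^ 6 ≤ T := by
    unfold pT at hT
    omega
  have hjj : 1 ≤ j ^ 2 * A ^ 6 := Nat.one_le_iff_ne_zero.2 (by positivity)
  have hT4 : 400000 ≤ T := by
    calc 400000 = 400000 * 1 := by norm_num
      _ ≤ 400000 * (j ^ 2 * A ^ 6) := Nat.mul_le_mul_left _ hjj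
      _ = 400000 * j ^ 2 * A ^ 6 := by ring
      _ ≤ T := hbig
  have hkK : 2 ^ T ≤ k := by
    calc 2 ^ T = 2 ^ T * 1 := (mul_one _).symm
      _ ≤ 2 ^ T * Nat.log 2 n := Nat.mul_le_mul_left _ h1
      _ ≤ k := hk1
  have hk0 : 0 < k := lt_of_lt_of_le (Nat.two_pow_pos T) hkK
  have hlog : T ≤ Nat.log 2 k := (Nat.le_log_iff_pow_le (by norm_num) hk0.ne').2 hkK
  have hp1 : 8 * A * n < pp A n k * k := by
    unfold pp
    have := Nat.lt_div_mul_add (a := 8 * A * n) hk0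
    calc 8 * A * n < 8 * A * n / k * k + k := this
      _ = (8 * A * n / k + 1) * k := by ring
  have hkn : k ≤ n := (Nat.le_mul_of_pos_left k (Nat.two_pow_pos T)).trans hk2
  have hp2 : pp A n k * k ≤ 9 * A * n := by
    unfold pp
    have := Nat.div_mul_le_self (8 * A * n) k
    calc (8 * A * n / k + 1) * k = 8 * A * n / k * k + k := by ring
      _ ≤ 8 * A * n + n := Nat.add_le_add this hkn
      _ ≤ 8 * A * n + A * n := Nat.add_le_add_left (Nat.le_mul_of_pos_left n hA) _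
      _ = 9 * A * n := by ring
  have hd0 : 0 < pd A j := by unfold pd; positivity
  have hG0 : 0 < 4 * pd A j * (Nat.log 2 k + 1) := by positivity
  have hl1 : pl A j k * (4 * pd A j * (Nat.log 2 k + 1)) ≤ k := Nat.div_mul_le_self _ _
  have hl2 : k < (pl A j k + 1) * (4 * pd A j * (Nat.log 2 k + 1)) := by
    unfold pl
    have := Nat.lt_div_mul_add (a := k) hG0
    calc k < k / (4 * pd A j * (Nat.log 2 k + 1)) * (4 * pd A j * (Nat.log 2 k + 1)) +
          4 * pd A j * (Nat.log 2 k + 1) := this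
      _ = _ := by ring
  have hl3 : 2 ^ (8 * pd A j + 6) * (9 * A) ≤ pl A j k := by
    unfold pl
    rw [Nat.le_div_iff_mul_le hG0]
    have hC : 2 ^ (8 * pd A j + 6) * (18 * A) * (4 * pd A j) ≤ T := by
      unfold pT at hT
      omega
    have h2 := log_small (k := k) (show 4 ≤ T by omega) hC hkK
    have h3 : Nat.log 2 k + 1 ≤ 2 * Nat.log 2 k := by omega
    calc 2 ^ (8 * pd A j + 6) * (9 * A) * (4 * pd A j * (Nat.log 2 k + 1))
        ≤ 2 ^ (8 * pd A j + 6) * (9 * A) * (4 * pd A j * (2 * Nat.log 2 k)) :=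
          Nat.mul_le_mul_left _ (Nat.mul_le_mul_left _ h3)
      _ = 2 ^ (8 * pd A j + 6) * (18 * A) * (4 * pd A j) * Nat.log 2 k := by ring
      _ ≤ k := h2
  exact ⟨h1, hbig, hTT, hkK, hlog, hp1, hp2, hl3, hl1, hl2⟩

/-- The exponent of the bound for `M`. -/
def py (A j n k : ℕ) : ℕ := (Nat.log 2 n + 1) + 2 * pl A j k * (Nat.log 2 k + 1)

theorem conds {A j T n k : ℕ} (hA : 1 ≤ A) (hj : 1 ≤ j) (hT : pT A j ≤ T) (hn : 2 ≤ n)
    (hnA : 2 * A ≤ n) (hk1 : 2 ^ T * Nat.log 2 n ≤ k) (hk2 : 2 ^ T * k ≤ n) :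
    1 ≤ pr A j k ∧ pr A j k ≤ k ∧ 2 ≤ pl A j k ∧ 2 * pl A j k ≤ pr A j k ∧
    k ≤ 2 * pd A j * pr A j k ∧ pM A j n k ≤ 2 ^ py A j n k ∧ 9 * A ^ 2 * py A j n k ≤ k ∧
    pM A j n k ≤ 2 ^ k ∧ k ≤ n ∧
    4 * (2 ^ n * pM A j n k ^ pp A n k * (n - n / A) ^ (k * pp A n k)) ≤ n ^ (k * pp A n k) ∧
    2 ^ (4 * (2 * pd A j) + 6) * (k * pp A n k) ≤ pl A j k * n ∧
    4 * ((n + 1) * (pp A n k + 1)) ≤ 4 ^ pr A j k ∧
    2 ^ n * ((k + 1) ^ (2 * pl A j k) - 1) ^ pM A j n k < ((k + 1) ^ (2 * pl A j k)) ^ pM A j n k := by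
  obtain ⟨h1, hbig, hTT, hkK, hlog, hp1, hp2, hl3, hl1, hl2⟩ := facts hA hj hT hn hk1 hk2
  have hk0 : 0 < k := lt_of_lt_of_le (Nat.two_pow_pos T) hkK
  have hkn : k ≤ n := (Nat.le_mul_of_pos_left k (Nat.two_pow_pos T)).trans hk2
  have hd0 : 0 < pd A j := by unfold pd; positivity
  have hjA : j * A ^ 2 ≤ j ^ 2 * A ^ 6 := by
    calc j * A ^ 2 = j ^ 1 * A ^ 2 := by ring
      _ ≤ j ^ 2 * A ^ 6 := Nat.mul_le_mul (Nat.pow_le_pow_right hj (by norm_num))
          (Nat.pow_le_pow_right hA (by norm_num))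
  have hAA : A ^ 2 ≤ j ^ 2 * A ^ 6 := by
    calc A ^ 2 = 1 * A ^ 2 := by ring
      _ ≤ j ^ 2 * A ^ 6 := Nat.mul_le_mul (Nat.one_le_iff_ne_zero.2 (by positivity))
          (Nat.pow_le_pow_right hA (by norm_num))
  have hA1 : A ≤ A ^ 2 := by
    calc A = A ^ 1 := (pow_one A).symm
      _ ≤ A ^ 2 := Nat.pow_le_pow_right hA (by norm_num)
  have hdT : 100 * pd A j ≤ T := by
    calc 100 * pd A j = 1800 * (j * A ^ 2) := by unfold pd; ring
      _ ≤ 1800 * (j ^ 2 * A ^ 6) := Nat.mul_le_mul_left _ hjA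
      _ ≤ 400000 * j ^ 2 * A ^ 6 := by nlinarith [Nat.zero_le (j ^ 2 * A ^ 6)]
      _ ≤ T := hbig
  have hAT : 400000 * A ^ 2 ≤ T := by
    calc 400000 * A ^ 2 ≤ 400000 * (j ^ 2 * A ^ 6) := Nat.mul_le_mul_left _ hAA
      _ = 400000 * j ^ 2 * A ^ 6 := by ring
      _ ≤ T := hbig
  set l := pl A j k with hl
  set r := pr A j k with hr
  set p := pp A n k with hp
  set M := pM A j n k with hM
  set d := pd A j with hd
  set lk := Nat.log 2 k with hlk
  set ln := Nat.log 2 n with hln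
  have hX : 1 ≤ 2 ^ (8 * d + 6) * A := Nat.one_le_iff_ne_zero.2 (by positivity)
  have hl9 : 9 ≤ l := by
    calc 9 = 9 * 1 := by norm_num
      _ ≤ 9 * (2 ^ (8 * d + 6) * A) := Nat.mul_le_mul_left _ hX
      _ = 2 ^ (8 * d + 6) * (9 * A) := by ring
      _ ≤ l := hl3
  -- l * 4 d ≤ k
  have hl4 : l * (4 * d) ≤ k := by
    calc l * (4 * d) ≤ l * (4 * d * (lk + 1)) :=
          Nat.mul_le_mul_left _ (Nat.le_mul_of_pos_right _ (by omega))
      _ ≤ k := hl1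
  have hlr : 2 * l ≤ r := by
    rw [hr, pr, Nat.le_div_iff_mul_le hd0]
    calc 2 * l * d ≤ l * (4 * d) := by nlinarith
      _ ≤ k := hl4
  have hrd : r * d ≤ k := Nat.div_mul_le_self _ _
  have hrk : r ≤ k := (Nat.le_mul_of_pos_right r hd0).trans hrd
  have hr1 : 1 ≤ r := by omega
  have hkr : k ≤ 2 * d * r := by
    have h2 : k < r * d + d := Nat.lt_div_mul_add hd0
    nlinarith
  -- M
  have hy1 : M ≤ 2 ^ py A j n k := by
    rw [hM, pM, py]
    have e1 : k + 1 ≤ 2 ^ (lk + 1) := Nat.lt_pow_succ_log_self (by norm_num) k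
    have e2 : n + 1 ≤ 2 ^ (ln + 1) := Nat.lt_pow_succ_log_self (by norm_num) n
    rw [← hlk, ← hln, ← hl]
    calc (k + 1) ^ (2 * l) * (n + 1) ≤ (2 ^ (lk + 1)) ^ (2 * l) * 2 ^ (ln + 1) :=
          Nat.mul_le_mul (Nat.pow_le_pow_left e1 _) e2
      _ = 2 ^ (ln + 1 + 2 * l * (lk + 1)) := by
          rw [← pow_mul, ← pow_add]
          congr 1
          ring
  have hKn : T * ln ≤ k := (Nat.mul_le_mul_right _ hTT.le).trans hk1
  have hy2 : 9 * A ^ 2 * py A j n k ≤ k := by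
    rw [py, ← hlk, ← hln, ← hl]
    have e1 : 9 * A ^ 2 * (2 * l * (lk + 1)) * 4 ≤ k := by
      have e2 : 9 * A ^ 2 * (2 * l * (lk + 1)) * 4 ≤ l * (4 * d * (lk + 1)) := by
        have e3 : 18 * A ^ 2 ≤ d := by
          rw [hd, pd]
          calc 18 * A ^ 2 = 18 * 1 * A ^ 2 := by ring
            _ ≤ 18 * j * A ^ 2 := Nat.mul_le_mul_right _ (Nat.mul_le_mul_left _ hj)
        calc 9 * A ^ 2 * (2 * l * (lk + 1)) * 4 = l * (4 * (18 * A ^ 2) * (lk + 1)) := by ring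
          _ ≤ l * (4 * d * (lk + 1)) := Nat.mul_le_mul_left _
              (Nat.mul_le_mul_right _ (Nat.mul_le_mul_left _ e3))
      exact e2.trans hl1
    have e4 : 9 * A ^ 2 * (ln + 1) * 4 ≤ k := by
      calc 9 * A ^ 2 * (ln + 1) * 4 ≤ 9 * A ^ 2 * (2 * ln) * 4 :=
            Nat.mul_le_mul_right _ (Nat.mul_le_mul_left _ (by omega))
        _ = 72 * A ^ 2 * ln := by ring
        _ ≤ T * ln := Nat.mul_le_mul_right _ (by omega)
        _ ≤ k := hKn
    calc 9 * A ^ 2 * (ln + 1 + 2 * l * (lk + 1)) =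
        9 * A ^ 2 * (ln + 1) + 9 * A ^ 2 * (2 * l * (lk + 1)) := by ring
      _ ≤ k := by omega
  have hA2 : 1 ≤ A ^ 2 := Nat.one_le_pow _ _ hA
  have hyk : py A j n k ≤ k := (Nat.le_mul_of_pos_left _ (by omega)).trans hy2
  have hMk : M ≤ 2 ^ k := hy1.trans (Nat.pow_le_pow_right (by norm_num) hyk)
  -- E5
  have h5 : 2 ^ (4 * (2 * d) + 6) * (k * p) ≤ l * n := by
    calc 2 ^ (4 * (2 * d) + 6) * (k * p) = 2 ^ (8 * d + 6) * (p * k) := by
          rw [mul_comm k p, show 4 * (2 * d) + 6 = 8 * d + 6 by ring]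
      _ ≤ 2 ^ (8 * d + 6) * (9 * A * n) := Nat.mul_le_mul_left _ hp2
      _ = 2 ^ (8 * d + 6) * (9 * A) * n := by ring
      _ ≤ l * n := Nat.mul_le_mul_right _ hl3
  -- E1
  have hE1 : 4 * (2 ^ n * M ^ p * (n - n / A) ^ (k * p)) ≤ n ^ (k * p) := by
    have hP2 := Pool.Agent.H69.RD.pf_P2 Pool.Agent.H74.RD.pf_P1 (2 * A) (n - n / A) n (k * p)
      (2 + n + py A j n k * p) (by omega) ?_ ?_
    · calc 4 * (2 ^ n * M ^ p * (n - n / A) ^ (k * p))
          ≤ 4 * (2 ^ n * (2 ^ py A j n k) ^ p * (n - n / A) ^ (k * p)) :=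
            Nat.mul_le_mul_left _ (Nat.mul_le_mul_right _
              (Nat.mul_le_mul_left _ (Nat.pow_le_pow_left hy1 _)))
        _ = 2 ^ (2 + n + py A j n k * p) * (n - n / A) ^ (k * p) := by
            rw [← pow_mul, pow_add, pow_add]
            ring
        _ ≤ n ^ (k * p) := hP2
    · have e1 : n < n / A * A + A := Nat.lt_div_mul_add (by omega)
      have e2 : n / A ≤ n := Nat.div_le_self _ _
      have e3 : n ≤ 2 * (n / A * A) := by
        have : A ≤ n / A * A := by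
          have : 1 ≤ n / A := (Nat.le_div_iff_mul_le (by omega)).2 (by omega)
          exact Nat.le_mul_of_pos_left _ (by omega)
        omega
      have e4 : (2 * A) * (n - n / A) + 2 * A * (n / A) = 2 * A * n := by
        rw [← Nat.mul_add, Nat.sub_add_cancel e2]
      have e5 : (2 * A - 1) * n + n = 2 * A * n := by
        calc (2 * A - 1) * n + n = ((2 * A - 1) + 1) * n := by ring
          _ = 2 * A * n := by rw [Nat.sub_add_cancel (by omega)]
      have e6 : 2 * A * (n / A) = 2 * (n / A * A) := by ring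
      omega
    · have e1 : 2 * A * (py A j n k * p) * 9 ≤ 2 * (k * p) := by
        have e2 : 9 * A * py A j n k ≤ k := by
          refine le_trans ?_ hy2
          exact Nat.mul_le_mul_right _ (Nat.mul_le_mul_left _ hA1)
        calc 2 * A * (py A j n k * p) * 9 = 2 * (9 * A * py A j n k * p) := by ring
          _ ≤ 2 * (k * p) := Nat.mul_le_mul_left _ (Nat.mul_le_mul_right _ e2)
      have e3 : 2 * A * (2 + n) ≤ 4 * A * n := by nlinarith
      have e4 : 8 * A * n < k * p := by rw [mul_comm k p]; exact hp1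
      have e5 : 2 * (4 * A * n) = 8 * A * n := by ring
      calc 2 * A * (2 + n + py A j n k * p) = 2 * A * (2 + n) + 2 * A * (py A j n k * p) := by ring
        _ ≤ k * p := by omega
  -- numbers of pairs
  have h4 : 4 * ((n + 1) * (p + 1)) ≤ 4 ^ r := by
    have e1 : p ≤ n := by
      have e2 : 9 * A * n ≤ k * n := Nat.mul_le_mul_right _ (by nlinarith)
      have e3 : p * k ≤ n * k := by
        calc p * k ≤ 9 * A * n := hp2
          _ ≤ k * n := e2
          _ = n * k := mul_comm _ _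
      exact Nat.le_of_mul_le_mul_right e3 hk0
    have e2 : n + 1 ≤ 2 ^ (ln + 1) := Nat.lt_pow_succ_log_self (by norm_num) n
    have e3 : ln + 2 ≤ r := by
      rw [hr, pr, Nat.le_div_iff_mul_le hd0]
      calc (ln + 2) * d ≤ (3 * ln) * d := Nat.mul_le_mul_right _ (by omega)
        _ = 3 * d * ln := by ring
        _ ≤ T * ln := Nat.mul_le_mul_right _ (by omega)
        _ ≤ k := hKn
    calc 4 * ((n + 1) * (p + 1)) ≤ 4 * (2 ^ (ln + 1) * 2 ^ (ln + 1)) :=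
          Nat.mul_le_mul_left _ (Nat.mul_le_mul e2 (le_trans (by omega) e2))
      _ = 4 ^ (ln + 2) := by
          rw [show (4 : ℕ) = 2 ^ 2 by norm_num, ← pow_mul, ← pow_add, ← pow_add]
          congr 1
          ring
      _ ≤ 4 ^ r := Nat.pow_le_pow_right (by norm_num) e3
  -- unsatisfiability
  have h6 : 2 ^ n * ((k + 1) ^ (2 * l) - 1) ^ M < ((k + 1) ^ (2 * l)) ^ M := by
    have hL : 0 < (k + 1) ^ (2 * l) := by positivity
    have e1 := Pool.Agent.H74.RD.pf_P1 ((k + 1) ^ (2 * l)) M (n + 1) hL (by rw [hM, pM])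
    have e2 : 0 < ((k + 1) ^ (2 * l)) ^ M := by positivity
    rw [pow_succ] at e1
    generalize ((k + 1) ^ (2 * l) - 1) ^ M = x at *
    generalize ((k + 1) ^ (2 * l)) ^ M = y at *
    generalize 2 ^ n = z at *
    nlinarith
  exact ⟨hr1, hrk, by omega, hlr, hkr, hy1, hy2, hMk, hkn, hE1, h5, h4, h6⟩

end Pool.Agent.H78.UN
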