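import Mathlib

/-!
# Semantic refutations with unate lines: definitions

A line is represented by the set of the assignments which falsify it.
-/

namespace Pool.Agent.H78.UN

open Finset

/-- A clause is a finite set of literals; a literal is a pair (variable, sign). -/
abbrev Clause (V : Type) : Type := Finset (V × Bool)

/-- The assignment `z` falsifies every literal of `C`. -/
def Falsified {V : Type} (C : Clause V) (z : V → Bool) : Prop := ∀ l ∈ C, z l.1 ≠ l.2

/-- A semantic dag-like refutation of the CNF formula `F` with `S` lines, all of them unate.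

* `A v` is the set of the assignments which falsify line `v`.
* Line `v` depends only on the variables in `W v`, and in each of them it is monotone: if `z`
  falsifies the line and `z'` is obtained from `z` by replacing the values at some variables of
  `W v` by those of `o v`, and by changing the values of variables outside `W v` in any way, then
  `z'` falsifies the line as well.
* Every line either follows from at most `q` clauses of `F`, or it follows from at most `B`
  earlier lines (which can be used many times).
* A line is light if it depends on at most `s` variables, and heavy otherwise. The number `run v`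
  bounds the number of consecutive heavy lines directly after line `v` on a path from a line to
  one of its premises. So no path has more than `D` consecutive heavy lines. -/
structure URef {V : Type} [DecidableEq V] (F : Finset (Clause V)) (B q s D S : ℕ) where
  A : Fin S → Set (V → Bool)
  W : Fin S → Finset V
  o : Fin S → V → Bool
  unate : ∀ v, ∀ z ∈ A v, ∀ z' : V → Bool, (∀ x ∈ W v, z' x = z x ∨ z' x = o v x) → z' ∈ A v
  run : Fin S → ℕ
  run_le : ∀ v, run v ≤ D
  rule : ∀ v,
    (∃ Q : Finset (Clause V), Q ⊆ F ∧ Q.card ≤ q ∧ ∀ z ∈ A v, ∃ C ∈ Q, Falsified C z) ∨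
    (∃ P : Finset (Fin S), P.card ≤ B ∧
      (∀ a ∈ P, a < v ∧ ((W a).card ≤ s ∨ run a < run v)) ∧ ∀ z ∈ A v, ∃ a ∈ P, z ∈ A a)
  root : ∃ v, ∀ z, z ∈ A v

/-- Constraints with scopes: a violated constraint is violated again only after changes in at
least `2 * l + 1` places of its scope. -/
structure Inst (V : Type) [DecidableEq V] (M l : ℕ) where
  sc : Fin M → Finset V
  vio : Fin M → (V → Bool) → Prop
  loc : ∀ c z z', (∀ x ∈ sc c, z x = z' x) → vio c z → vio c z'
  far : ∀ c z z', vio c z → vio c z' → (∃ x ∈ sc c, z x ≠ z' x) →
    2 * l + 1 ≤ ((sc c).filter (fun x => z x ≠ z' x)).card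

variable {V : Type} [DecidableEq V] {M l : ℕ}

/-- The union of the scopes of the constraints in `J`. -/
def VJ (sc : Fin M → Finset V) (J : Finset (Fin M)) : Finset V := J.biUnion sc

/-- (E1) many constraints cover nearly everything. -/
def E1 [Fintype V] (sc : Fin M → Finset V) (p e : ℕ) : Prop :=
  ∀ J : Finset (Fin M), J.card = p → Fintype.card V ≤ (VJ sc J).card + e

/-- (E5) local sparsity. -/
def E5 (sc : Fin M → Finset V) (p r l : ℕ) : Prop :=
  ∀ (N : Finset (Fin M)) (X : Finset V), N.card ≤ p → (∀ c ∈ N, r ≤ (sc c ∩ X).card) →
    ∑ c ∈ N, (sc c ∩ X).card ≤ l * X.card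

/-- The assignment `z` with the values in `Y` flipped. -/
def flp (z : V → Bool) (Y : Finset V) : V → Bool := fun x => if x ∈ Y then !(z x) else z x

/-- The variables of `W` at which `z` agrees with `o`: a certificate for membership. -/
def ag (W : Finset V) (o z : V → Bool) : Finset V := W.filter (fun x => z x = o x)

/-- The exposed constraints: each of them has less than `r` places outside the certificate of a
line in `U` and outside the scopes exposed before. -/
inductive Cov {S : ℕ} (sc : Fin M → Finset V) (r : ℕ) (W : Fin S → Finset V)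
    (o : Fin S → V → Bool) (U : Finset (Fin S)) (z : V → Bool) : Finset (Fin M) → Prop
  | nil : Cov sc r W o U z ∅
  | cons {J : Finset (Fin M)} {c : Fin M} {u : Fin S} : Cov sc r W o U z J → c ∉ J → u ∈ U →
      (sc c \ (ag (W u) (o u) z ∪ VJ sc J)).card < r → Cov sc r W o U z (insert c J)

/-- Pairs (last line, set of the lines of the path and their premises) of the paths of length `j`
from `v0`. -/
def PS {S : ℕ} (P : Fin S → Finset (Fin S)) (v0 : Fin S) : ℕ → Finset (Fin S × Finset (Fin S))
  | 0 => {(v0, insert v0 (P v0))}
  | j + 1 => (PS P v0 j).biUnion (fun y => (P y.1).image (fun a => (a, y.2 ∪ insert a (P a))))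

/-- The closed sets of constraints with respect to the lines in `U`. -/
def Clo {S : ℕ} (sc : Fin M → Finset V) (r : ℕ) (W : Fin S → Finset V)
    (o : Fin S → V → Bool) (U : Finset (Fin S)) (z : V → Bool) (J : Finset (Fin M)) : Prop :=
  ∀ u ∈ U, ∀ c, c ∉ J → r ≤ (sc c \ (ag (W u) (o u) z ∪ VJ sc J)).card

/-- The number of places where two assignments differ. -/
def dis [Fintype V] (z z' : V → Bool) : ℕ := (Finset.univ.filter (fun x => z x ≠ z' x)).card

/-- No phase of length at most `t` which starts at distance at most `f` from `zs` exposes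
`p` or more constraints. -/
def Good [Fintype V] {S : ℕ} (sc : Fin M → Finset V) (r p t f : ℕ) (W : Fin S → Finset V)
    (o : Fin S → V → Bool) (P : Fin S → Finset (Fin S)) (zs : V → Bool) : Prop :=
  ∀ z0, dis z0 zs ≤ f → ∀ v0, ∀ j ≤ t, ∀ y ∈ PS P v0 j, ∀ J, Cov sc r W o y.2 z0 J → J.card < p

/-- The state at the beginning of a phase. -/
def Base {S : ℕ} (sc : Fin M → Finset V) (vio : Fin M → (V → Bool) → Prop) (r : ℕ)
    (A : Fin S → Set (V → Bool)) (W : Fin S → Finset V) (o : Fin S → V → Bool)
    (v : Fin S) (z : V → Bool) : Prop :=
  z ∈ A v ∧ ∃ J, Cov sc r W o {v} z J ∧ Clo sc r W o {v} z J ∧ ∀ c ∈ J, ¬ vio c z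

/-- The state during a phase which started at line `v0` with the assignment `z0`; now we are,
after `j` steps, at line `v` with the assignment `z`; `U` is the set of the lines of the path and
their premises, `J` the set of the exposed constraints. -/
structure State [Fintype V] {S : ℕ} (sc : Fin M → Finset V) (vio : Fin M → (V → Bool) → Prop)
    (r κ : ℕ) (A : Fin S → Set (V → Bool)) (W : Fin S → Finset V) (o : Fin S → V → Bool)
    (P : Fin S → Finset (Fin S)) (v0 : Fin S) (z0 : V → Bool) (j : ℕ) (v : Fin S)
    (U : Finset (Fin S)) (z : V → Bool) (J : Finset (Fin M)) : Prop where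
  path : (v, U) ∈ PS P v0 j
  mem : z ∈ A v
  cov : Cov sc r W o U z0 J
  clo : Clo sc r W o U z0 J
  sat : ∀ c ∈ J, ¬ vio c z
  off : ∀ x, x ∉ VJ sc J → z x = z0 x
  dist : dis z z0 ≤ κ * J.card

end Pool.Agent.H78.UN
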