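import Pool.Agent.H78.UN.Basic

/-! The repair lemma. -/

set_option linter.unusedSectionVars false

namespace Pool.Agent.H78.UN

open Finset

/-- The number of flips. -/
theorem bnd : T_BND := by
  classical
  intro V _ M p r l sc N Pc Y h5 hp hdis hY hin
  set a : Fin M → ℕ := fun c => (Y ∩ Pc c).card with ha
  set b : Fin M → ℕ := fun c => (sc c ∩ Y).card with hb
  have hin' : ∀ c ∈ N, a c * (2 * l + 1) ≤ b c + (2 * l + 1) := by
    intro c hc
    have h := hin c hc
    rw [Finset.inter_comm Y (sc c)] at h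
    exact h
  have hcard : Y.card = ∑ c ∈ N, a c := by
    rw [ha]
    rw [← Finset.card_biUnion]
    · congr 1
      ext x
      simp only [Finset.mem_biUnion, Finset.mem_inter]
      constructor
      · intro hx
        obtain ⟨c, hc, hxc⟩ := Finset.mem_biUnion.1 (hY hx)
        exact ⟨c, hc, hx, hxc⟩
      · rintro ⟨c, -, hx, -⟩
        exact hx
    · intro c hc c' hc' hne
      exact Finset.disjoint_of_subset_left Finset.inter_subset_right
        (Finset.disjoint_of_subset_right Finset.inter_subset_right (hdis c hc c' hc' hne))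
  -- split
  have hs := Finset.sum_filter_add_sum_filter_not N (fun c => r ≤ b c) a
  have hcN := Finset.card_filter_add_card_filter_not (s := N) (fun c => r ≤ b c)
  set N2 := N.filter (fun c => r ≤ b c) with hN2
  set N1 := N.filter (fun c => ¬ r ≤ b c) with hN1
  have h1 : ∑ c ∈ N1, a c ≤ N1.card * (1 + r / (2 * l + 1)) := by
    rw [← smul_eq_mul, ← Finset.sum_const]
    refine Finset.sum_le_sum fun c hc => ?_
    obtain ⟨hc1, hc2⟩ := Finset.mem_filter.1 hc
    have h := hin' c hc1
    have h2 : a c * (2 * l + 1) ≤ r + (2 * l + 1) := by omega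
    have h3 := (Nat.le_div_iff_mul_le (show 0 < 2 * l + 1 by omega)).2 h2
    rw [Nat.add_div_right _ (show 0 < 2 * l + 1 by omega)] at h3
    omega
  have h2 : (∑ c ∈ N2, a c) * (2 * l + 1) ≤ l * Y.card + N2.card * (2 * l + 1) := by
    have h3 := h5 N2 Y ((Finset.card_le_card (Finset.filter_subset _ _)).trans hp)
      (fun c hc => (Finset.mem_filter.1 hc).2)
    calc (∑ c ∈ N2, a c) * (2 * l + 1) = ∑ c ∈ N2, a c * (2 * l + 1) := Finset.sum_mul _ _ _
      _ ≤ ∑ c ∈ N2, (b c + (2 * l + 1)) :=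
          Finset.sum_le_sum fun c hc => hin' c (Finset.mem_filter.1 hc).1
      _ = ∑ c ∈ N2, b c + N2.card * (2 * l + 1) := by
          rw [Finset.sum_add_distrib, Finset.sum_const, smul_eq_mul]
      _ ≤ _ := Nat.add_le_add_right h3 _
  have h3 : N2.card ≤ N2.card * (1 + r / (2 * l + 1)) := Nat.le_mul_of_pos_right _ (by positivity)
  have h4 : N1.card * (1 + r / (2 * l + 1)) + N2.card * (1 + r / (2 * l + 1)) =
      N.card * (1 + r / (2 * l + 1)) := by rw [← Nat.add_mul, add_comm, hcN]
  have h6 : kap r l * N.card = 2 * (N.card * (1 + r / (2 * l + 1))) := by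
    unfold kap
    ring
  rw [h6]
  generalize N.card * (1 + r / (2 * l + 1)) = K at *
  generalize hA2 : ∑ c ∈ N2, a c = A2 at *
  generalize hA1 : ∑ c ∈ N1, a c = A1 at *
  have h7 : 2 * A2 ≤ Y.card + 2 * N2.card := by
    by_contra hcon
    have h8 : Y.card + 2 * N2.card + 1 ≤ 2 * A2 := by omega
    have h9 := Nat.mul_le_mul_right (2 * l + 1) h8
    nlinarith [h2, h9, Nat.zero_le l, Nat.zero_le Y.card]
  omega

/-- Greedy repair. -/
theorem gre : T_GRE := by
  classical
  intro V _ M l I N R Pc z hP hdis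
  obtain ⟨Y, hY, hmax⟩ := Finset.exists_max_image
    ((N.biUnion Pc).powerset.filter (fun Y =>
      (∀ c ∈ N, ∀ Z : Finset V, Y ⊆ Z → I.vio c (flp z Z) →
        (Y ∩ Pc c).card * (2 * l + 1) ≤ (Z ∩ I.sc c).card) ∧
      ∀ c ∈ N, (Y ∩ Pc c).card * (2 * l + 1) ≤ (Y ∩ I.sc c).card + (2 * l + 1))) Finset.card
    ⟨∅, Finset.mem_filter.2 ⟨Finset.mem_powerset.2 (Finset.empty_subset _), by simp, by simp⟩⟩
  obtain ⟨h0, h1, h2⟩ := Finset.mem_filter.1 hY
  rw [Finset.mem_powerset] at h0
  refine ⟨Y, h0, ?_, h2⟩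
  intro c hc hv
  have h3 := h1 c hc Y (Finset.Subset.refl _) hv
  have h4 : Y ∩ I.sc c ⊆ I.sc c \ R := by
    intro x hx
    obtain ⟨hx1, hx2⟩ := Finset.mem_inter.1 hx
    obtain ⟨c', hc', hx3⟩ := Finset.mem_biUnion.1 (h0 hx1)
    exact Finset.mem_sdiff.2 ⟨hx2, (Finset.mem_sdiff.1 ((hP c' hc').1 hx3)).2⟩
  have h5 : (Y ∩ Pc c).card < (Pc c).card := by
    have h6 := h3.trans (Finset.card_le_card h4)
    have h7 := (Nat.le_div_iff_mul_le (show 0 < 2 * l + 1 by omega)).2 h6
    have h8 := (hP c hc).2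
    omega
  obtain ⟨y, hy1, hy2⟩ : ∃ y ∈ Pc c, y ∉ Y := by
    by_contra hcon
    push Not at hcon
    have h6 : Pc c ⊆ Y ∩ Pc c := fun x hx => Finset.mem_inter.2 ⟨hcon x hx, hx⟩
    exact absurd (Finset.card_le_card h6) (not_le.2 h5)
  have hysc : y ∈ I.sc c := (Finset.mem_sdiff.1 ((hP c hc).1 hy1)).1
  have hone : (insert y Y ∩ Pc c).card ≤ (Y ∩ Pc c).card + 1 := by
    rw [Finset.insert_inter_of_mem hy1]
    exact Finset.card_insert_le _ _
  have hoth : ∀ c' ∈ N, c' ≠ c → insert y Y ∩ Pc c' = Y ∩ Pc c' := by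
    intro c' hc' hne
    refine Finset.insert_inter_of_notMem fun h => ?_
    exact Finset.disjoint_left.1 (hdis c' hc' c hc hne) h hy1
  have hsub : Y ⊆ insert y Y := Finset.subset_insert _ _
  have hbig := hmax (insert y Y) (Finset.mem_filter.2 ⟨?_, ?_, ?_⟩)
  · rw [Finset.card_insert_of_notMem hy2] at hbig
    omega
  · rw [Finset.mem_powerset]
    exact Finset.insert_subset (Finset.mem_biUnion.2 ⟨c, hc, hy1⟩) h0
  · intro c' hc' Z hZ hv'
    by_cases hne : c' = c
    · subst hne
      have hYZ := hsub.trans hZ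
      have hyZ : y ∈ Z := hZ (Finset.mem_insert_self _ _)
      have h6 := I.far c' (flp z Y) (flp z Z) hv hv' ⟨y, hysc, by simp [flp, hy2, hyZ]⟩
      have h7 : (I.sc c').filter (fun x => flp z Y x ≠ flp z Z x) ⊆
          (Z ∩ I.sc c') \ (Y ∩ I.sc c') := by
        intro x hx
        obtain ⟨hx1, hx2⟩ := Finset.mem_filter.1 hx
        by_cases hxY : x ∈ Y
        · exact absurd (by simp [flp, hxY, hYZ hxY]) hx2
        · by_cases hxZ : x ∈ Z
          · exact Finset.mem_sdiff.2 ⟨Finset.mem_inter.2 ⟨hxZ, hx1⟩,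
              fun h => hxY (Finset.mem_inter.1 h).1⟩
          · exact absurd (by simp [flp, hxY, hxZ]) hx2
      have h8 := Finset.card_le_card h7
      rw [Finset.card_sdiff_of_subset (Finset.inter_subset_inter hYZ (Finset.Subset.refl _))] at h8
      have h9 := Finset.card_le_card (Finset.inter_subset_inter hYZ (Finset.Subset.refl (I.sc c')))
      have h10 := Nat.mul_le_mul_right (2 * l + 1) hone
      have h11 : ((Y ∩ Pc c').card + 1) * (2 * l + 1) = (Y ∩ Pc c').card * (2 * l + 1) + (2 * l + 1) := by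
        ring
      omega
    · rw [hoth c' hc' hne]
      exact h1 c' hc' Z (hsub.trans hZ) hv'
  · intro c' hc'
    have h9 := Finset.card_le_card (Finset.inter_subset_inter hsub (Finset.Subset.refl (I.sc c')))
    by_cases hne : c' = c
    · subst hne
      have h10 := Nat.mul_le_mul_right (2 * l + 1) hone
      have h11 : ((Y ∩ Pc c').card + 1) * (2 * l + 1) = (Y ∩ Pc c').card * (2 * l + 1) + (2 * l + 1) := by
        ring
      omega
    · rw [hoth c' hc' hne]
      have := h2 c' hc'
      omega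

/-- Private places by Hall's theorem. -/
theorem hal : T_HALL := by
  classical
  intro V _ M p r l sc N R h5 hl hlr hp hfree
  set X : Fin M → Finset V := fun c => sc c \ R with hX
  set g : Fin M → ℕ := fun c => if c ∈ N then 1 + (X c).card / (2 * l + 1) else 0 with hg
  -- Hall for the pairs
  set T : (Σ c : Fin M, Fin (g c)) → Finset V := fun y => X y.1 with hT
  have hall : ∀ s : Finset (Σ c : Fin M, Fin (g c)), s.card ≤ (s.biUnion T).card := by
    intro s
    set B := s.image Sigma.fst with hB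
    have hBN : B ⊆ N := by
      intro c hc
      obtain ⟨y, hy, rfl⟩ := Finset.mem_image.1 hc
      by_contra h
      have h1 : g y.1 = 0 := by simp [hg, h]
      exact absurd y.2.isLt (by omega)
    have hU : s.biUnion T = B.biUnion X := by
      ext x
      simp only [hT, hB, Finset.mem_biUnion, Finset.mem_image]
      constructor
      · rintro ⟨y, hy, hx⟩
        exact ⟨y.1, ⟨y, hy, rfl⟩, hx⟩
      · rintro ⟨c, ⟨y, hy, rfl⟩, hx⟩
        exact ⟨y, hy, hx⟩
    have hs : s.card ≤ ∑ c ∈ B, g c := by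
      have h1 : s ⊆ B.sigma (fun c => (Finset.univ : Finset (Fin (g c)))) := by
        intro y hy
        exact Finset.mem_sigma.2 ⟨Finset.mem_image_of_mem _ hy, Finset.mem_univ _⟩
      refine (Finset.card_le_card h1).trans ?_
      rw [Finset.card_sigma]
      simp
    have hsp := h5 B (B.biUnion X) ((Finset.card_le_card hBN).trans hp) (by
      intro c hc
      refine (hfree c (hBN hc)).trans (Finset.card_le_card ?_)
      intro x hx
      exact Finset.mem_inter.2 ⟨(Finset.mem_sdiff.1 hx).1, Finset.mem_biUnion.2 ⟨c, hc, hx⟩⟩)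
    have h2 : ∑ c ∈ B, l * g c ≤ ∑ c ∈ B, (sc c ∩ B.biUnion X).card := by
      refine Finset.sum_le_sum fun c hc => ?_
      have h3 : (X c).card ≤ (sc c ∩ B.biUnion X).card := by
        refine Finset.card_le_card ?_
        intro x hx
        exact Finset.mem_inter.2 ⟨(Finset.mem_sdiff.1 hx).1, Finset.mem_biUnion.2 ⟨c, hc, hx⟩⟩
      refine le_trans ?_ h3
      have h4 := hfree c (hBN hc)
      simp only [hg]
      rw [if_pos (hBN hc)]
      have h6 : (X c).card / (2 * l + 1) * (2 * l + 1) ≤ (X c).card := Nat.div_mul_le_self _ _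
      have h7 : r ≤ (X c).card := h4
      generalize (X c).card / (2 * l + 1) = u at *
      nlinarith
    rw [hU]
    have h8 : l * s.card ≤ l * (B.biUnion X).card := by
      calc l * s.card ≤ l * ∑ c ∈ B, g c := Nat.mul_le_mul_left _ hs
        _ = ∑ c ∈ B, l * g c := Finset.mul_sum _ _ _
        _ ≤ _ := h2.trans hsp
    exact Nat.le_of_mul_le_mul_left h8 hl
  obtain ⟨f, hf1, hf2⟩ := (Finset.all_card_le_biUnion_card_iff_exists_injective T).1 hall
  refine ⟨fun c => (Finset.univ : Finset (Fin (g c))).image (fun i => f ⟨c, i⟩), ?_, ?_⟩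
  · intro c hc
    constructor
    · intro x hx
      obtain ⟨i, -, rfl⟩ := Finset.mem_image.1 hx
      exact hf2 ⟨c, i⟩
    · rw [Finset.card_image_of_injective]
      · simp [hg, hc, hX]
      · intro i i' h
        have := hf1 h
        simpa using this
  · intro c hc c' hc' hne
    rw [Finset.disjoint_left]
    intro x hx hx'
    obtain ⟨i, -, rfl⟩ := Finset.mem_image.1 hx
    obtain ⟨i', -, h⟩ := Finset.mem_image.1 hx'
    have h1 := hf1 h
    exact hne (congrArg Sigma.fst h1).symm

/-- The repair lemma. -/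
theorem fix : T_FIX := by
  intro V _ M p r l I N R z h5 hl hlr hp hfree
  obtain ⟨Pc, h1, h2⟩ := hal V M p r l I.sc N R h5 hl hlr hp hfree
  obtain ⟨Y, h3, h4, h6⟩ := gre V M l I N R Pc z h1 h2
  have h7 := bnd V M p r l I.sc N Pc Y h5 hp h2 h3 h6
  refine ⟨Y, ?_, ?_, h4, h7⟩
  · rw [Finset.disjoint_left]
    intro x hx hR
    obtain ⟨c, hc, hxc⟩ := Finset.mem_biUnion.1 (h3 hx)
    exact (Finset.mem_sdiff.1 ((h1 c hc).1 hxc)).2 hR
  · intro x hx
    obtain ⟨c, hc, hxc⟩ := Finset.mem_biUnion.1 (h3 hx)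
    exact mem_VJ.2 ⟨c, hc, (Finset.mem_sdiff.1 ((h1 c hc).1 hxc)).1⟩

end Pool.Agent.H78.UN
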