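import Pool.Agent.H78.UN.Cond

/-! The final numerical step. -/

namespace Pool.Agent.H78.UN

open Finset

/-- The factor for the number of flips is at most logarithmic. -/
theorem kap_le {A j T n k : ℕ} (hA : 1 ≤ A) (hj : 1 ≤ j) (hT : pT A j ≤ T) (hn : 2 ≤ n)
    (hk1 : 2 ^ T * Nat.log 2 n ≤ k) (hk2 : 2 ^ T * k ≤ n) :
    kap (pr A j k) (pl A j k) ≤ 18 * Nat.log 2 k := by
  obtain ⟨h1, hbig, hTT, hkK, hlog, hp1, hp2, hl3, hl1, hl2⟩ := facts hA hj hT hn hk1 hk2
  have hd0 : 0 < pd A j := by unfold pd; positivity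
  have hrd : pr A j k * pd A j ≤ k := Nat.div_mul_le_self _ _
  have hT1 : 1 ≤ T := by
    have : 0 < 400000 * j ^ 2 * A ^ 6 := by positivity
    omega
  have hr : pr A j k < (pl A j k + 1) * (4 * (Nat.log 2 k + 1)) := by
    refine Nat.lt_of_mul_lt_mul_right (a := pd A j) ?_
    calc pr A j k * pd A j ≤ k := hrd
      _ < (pl A j k + 1) * (4 * pd A j * (Nat.log 2 k + 1)) := hl2
      _ = (pl A j k + 1) * (4 * (Nat.log 2 k + 1)) * pd A j := by ring
  have hq : pr A j k / (2 * pl A j k + 1) ≤ 4 * (Nat.log 2 k + 1) := by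
    have h3 : pr A j k < (4 * (Nat.log 2 k + 1) + 1) * (2 * pl A j k + 1) := by
      refine lt_of_lt_of_le hr ?_
      nlinarith [Nat.zero_le (pl A j k), Nat.zero_le (Nat.log 2 k)]
    have h4 := (Nat.div_lt_iff_lt_mul (show 0 < 2 * pl A j k + 1 by omega)).2 h3
    omega
  unfold kap
  omega

/-- Natural number bounds for the refutation parameters. -/
theorem bounds {A j T n k B q s D : ℕ} (hA : 1 ≤ A) (hj : 1 ≤ j) (hT : pT A j ≤ T) (hn : 2 ≤ n)
    (hk1 : 2 ^ T * Nat.log 2 n ≤ k) (hk2 : 2 ^ T * k ≤ n) (hB : 2 ≤ B) (hq : q * k ≤ n)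
    (hs : 2 ^ T * s ≤ n) (hBk : 2 ^ T * Nat.log 2 B ≤ k)
    (hD : 2 ^ T * (D * Nat.log 2 B * Nat.log 2 k) ≤ n * k) :
    ∃ t m : ℕ, 1 ≤ t ∧ D < m * t ∧ q ≤ pp A n k ∧ A * ((Nat.log 2 B + 1) * t) ≤ n ∧ t ≤ n ∧
      2 * j * A * (s + pr A j k * pp A n k + m * (kap (pr A j k) (pl A j k) * pp A n k)) ≤ 3 * n := by
  have hkap := kap_le hA hj hT hn hk1 hk2
  obtain ⟨h1, hbig, hTT, hkK, hlog, hp1, hp2, hl3, hl1, hl2⟩ := facts hA hj hT hn hk1 hk2
  have hk0 : 0 < k := lt_of_lt_of_le (Nat.two_pow_pos T) hkK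
  have hkn : k ≤ n := (Nat.le_mul_of_pos_left k (Nat.two_pow_pos T)).trans hk2
  have hd0 : 0 < pd A j := by unfold pd; positivity
  have hβ : 1 ≤ Nat.log 2 B := Nat.log_pos (by norm_num) hB
  set β := Nat.log 2 B with hβd
  set lk := Nat.log 2 k with hlk
  set r := pr A j k with hr
  set p := pp A n k with hp
  set κ := kap (pr A j k) (pl A j k) with hκ
  have hjA : j * A ^ 3 ≤ j ^ 2 * A ^ 6 := by
    calc j * A ^ 3 = j ^ 1 * A ^ 3 := by ring
      _ ≤ j ^ 2 * A ^ 6 := Nat.mul_le_mul (Nat.pow_le_pow_right hj (by norm_num))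
          (Nat.pow_le_pow_right hA (by norm_num))
  have hT3 : 400000 * (j * A ^ 3) ≤ T := by
    calc 400000 * (j * A ^ 3) ≤ 400000 * (j ^ 2 * A ^ 6) := Nat.mul_le_mul_left _ hjA
      _ = 400000 * j ^ 2 * A ^ 6 := by ring
      _ ≤ T := hbig
  have hjA2 : j * A ^ 2 ≤ j * A ^ 3 :=
    Nat.mul_le_mul_left _ (Nat.pow_le_pow_right hA (by norm_num))
  have hjA1 : j * A ≤ j * A ^ 3 := by
    calc j * A = j * A ^ 1 := by ring
      _ ≤ j * A ^ 3 := Nat.mul_le_mul_left _ (Nat.pow_le_pow_right hA (by norm_num))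
  have hAj : A ≤ j * A := Nat.le_mul_of_pos_left _ (by omega)
  have hβT : T * β ≤ k := (Nat.mul_le_mul_right _ hTT.le).trans hBk
  have hc0 : 0 < A * (β + 1) := by positivity
  obtain ⟨t, ht⟩ : ∃ t, t = n / (A * (β + 1)) := ⟨_, rfl⟩
  have htn1 : t * (A * (β + 1)) ≤ n := by rw [ht]; exact Nat.div_mul_le_self _ _
  have htn2 : n < t * (A * (β + 1)) + A * (β + 1) := by rw [ht]; exact Nat.lt_div_mul_add hc0
  have ht1 : 1 ≤ t := by
    rw [ht, Nat.le_div_iff_mul_le hc0]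
    calc 1 * (A * (β + 1)) ≤ A * (2 * β) := by rw [one_mul]; exact Nat.mul_le_mul_left _ (by omega)
      _ = 2 * A * β := by ring
      _ ≤ T * β := Nat.mul_le_mul_right _ (by omega)
      _ ≤ n := hβT.trans hkn
  have hn4 : n ≤ 4 * A * β * t := by
    have e1 : A * (β + 1) ≤ t * (A * (β + 1)) := Nat.le_mul_of_pos_left _ ht1
    have e2 : t * (A * (β + 1)) ≤ t * (A * (2 * β)) :=
      Nat.mul_le_mul_left _ (Nat.mul_le_mul_left _ (by omega))
    calc n ≤ 2 * (t * (A * (2 * β))) := by omega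
      _ = 4 * A * β * t := by ring
  obtain ⟨m0, hm0⟩ : ∃ m0, m0 = D / t := ⟨_, rfl⟩
  have hm1 : m0 * t ≤ D := by rw [hm0]; exact Nat.div_mul_le_self _ _
  have hm2 : D < m0 * t + t := by rw [hm0]; exact Nat.lt_div_mul_add (by omega)
  -- the number of phases
  have hK : T * (m0 * lk) ≤ 4 * A * k := by
    have e1 : T * (m0 * lk) * (β * t) ≤ 4 * A * k * (β * t) := by
      calc T * (m0 * lk) * (β * t) = T * (m0 * t * β * lk) := by ring
        _ ≤ 2 ^ T * (D * β * lk) := Nat.mul_le_mul hTT.le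
            (Nat.mul_le_mul_right _ (Nat.mul_le_mul_right _ hm1))
        _ ≤ n * k := hD
        _ ≤ 4 * A * β * t * k := Nat.mul_le_mul_right _ hn4
        _ = 4 * A * k * (β * t) := by ring
    exact Nat.le_of_mul_le_mul_right e1 (by positivity)
  have hB1 : 2 * j * A * (r * p) ≤ n := by
    have hrd : r * pd A j ≤ k := Nat.div_mul_le_self _ _
    have e1 : 2 * j * A * (r * p) * (9 * A) ≤ n * (9 * A) := by
      calc 2 * j * A * (r * p) * (9 * A) = r * pd A j * p := by unfold pd; ring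
        _ ≤ k * p := Nat.mul_le_mul_right _ hrd
        _ = p * k := mul_comm _ _
        _ ≤ 9 * A * n := hp2
        _ = n * (9 * A) := by ring
    exact Nat.le_of_mul_le_mul_right e1 (by positivity)
  have hB2 : 4 * j * A * (m0 * (18 * lk * p)) ≤ n := by
    have e1 : 4 * j * A * (m0 * (18 * lk * p)) * T ≤ n * T := by
      calc 4 * j * A * (m0 * (18 * lk * p)) * T = 72 * j * A * p * (T * (m0 * lk)) := by ring
        _ ≤ 72 * j * A * p * (4 * A * k) := Nat.mul_le_mul_left _ hK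
        _ = 288 * j * A ^ 2 * (p * k) := by ring
        _ ≤ 288 * j * A ^ 2 * (9 * A * n) := Nat.mul_le_mul_left _ hp2
        _ = 2592 * (j * A ^ 3) * n := by ring
        _ ≤ T * n := Nat.mul_le_mul_right _ (by omega)
        _ = n * T := mul_comm _ _
    exact Nat.le_of_mul_le_mul_right e1 (by omega)
  have hB3 : 4 * j * A * (18 * lk * p) ≤ n := by
    have e0 := log_small (T := T) (C := 648 * (j * A ^ 2)) (k := k) (by omega) (by omega) hkK
    have e1 : 4 * j * A * (18 * lk * p) * (9 * A) ≤ n * (9 * A) := by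
      calc 4 * j * A * (18 * lk * p) * (9 * A) = 648 * (j * A ^ 2) * lk * p := by ring
        _ ≤ k * p := Nat.mul_le_mul_right _ e0
        _ = p * k := mul_comm _ _
        _ ≤ 9 * A * n := hp2
        _ = n * (9 * A) := by ring
    exact Nat.le_of_mul_le_mul_right e1 (by positivity)
  have hB4 : 2 * j * A * s ≤ n := by
    calc 2 * j * A * s ≤ 2 ^ T * s := Nat.mul_le_mul_right _ (by
          calc 2 * j * A = 2 * (j * A) := by ring
            _ ≤ T := by omega
            _ ≤ 2 ^ T := hTT.le)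
      _ ≤ n := hs
  refine ⟨t, m0 + 1, ht1, ?_, ?_, ?_, ?_, ?_⟩
  · calc D < m0 * t + t := hm2
      _ = (m0 + 1) * t := by ring
  · have e1 : q * k ≤ p * k := by
      calc q * k ≤ n := hq
        _ ≤ 8 * A * n := Nat.le_mul_of_pos_left _ (by omega)
        _ ≤ p * k := hp1.le
    exact Nat.le_of_mul_le_mul_right e1 hk0
  · calc A * ((β + 1) * t) = t * (A * (β + 1)) := by ring
      _ ≤ n := htn1
  · calc t ≤ t * (A * (β + 1)) := Nat.le_mul_of_pos_right _ hc0
      _ ≤ n := htn1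
  · have e1 : (m0 + 1) * (κ * p) ≤ (m0 + 1) * (18 * lk * p) :=
      Nat.mul_le_mul_left _ (Nat.mul_le_mul_right _ hkap)
    have e2 : 2 * j * A * ((m0 + 1) * (κ * p)) ≤ n := by
      have e3 : 2 * j * A * ((m0 + 1) * (κ * p)) ≤ 2 * j * A * ((m0 + 1) * (18 * lk * p)) :=
        Nat.mul_le_mul_left _ e1
      have e4 : 2 * (2 * j * A * ((m0 + 1) * (18 * lk * p))) =
          4 * j * A * (m0 * (18 * lk * p)) + 4 * j * A * (18 * lk * p) := by ring
      omega
    calc 2 * j * A * (s + r * p + (m0 + 1) * (κ * p)) =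
        2 * j * A * s + 2 * j * A * (r * p) + 2 * j * A * ((m0 + 1) * (κ * p)) := by ring
      _ ≤ 3 * n := by omega

end Pool.Agent.H78.UN
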