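import Pool.Agent.H78.UN.Fin

/-! The main theorem from the abstract theorem. -/

namespace Pool.Agent.H78.UN

open Finset

theorem rpow_nat_le {a : ℕ} {x : ℕ} (h : a ≤ 2 ^ x) : (a : ℝ) ≤ (2 : ℝ) ^ (x : ℝ) := by
  rw [Real.rpow_natCast]
  exact_mod_cast h

theorem main_of (hAB : T_AB) (hBAL : T_BAL) : T_MAIN := by
  intro ε hε
  obtain ⟨A, hA, hAε⟩ : ∃ A : ℕ, 1 ≤ A ∧ (9 : ℝ) ≤ ε * A := by
    refine ⟨max 1 ⌈9 / ε⌉₊, le_max_left _ _, ?_⟩
    have h1 : 9 / ε ≤ (max 1 ⌈9 / ε⌉₊ : ℕ) :=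
      (Nat.le_ceil _).trans (by exact_mod_cast le_max_right _ _)
    rwa [div_le_iff₀' hε] at h1
  obtain ⟨j, hj⟩ : ∃ j, j = 36 * A ^ 2 := ⟨_, rfl⟩
  have hA2 : 1 ≤ A ^ 2 := Nat.one_le_pow _ _ hA
  have hj1 : 1 ≤ j := by omega
  have hjQ : 36 * A ^ 2 ≤ 2 ^ j := by rw [← hj]; exact Nat.lt_two_pow_self.le
  obtain ⟨T, hT⟩ : ∃ T, T = pT A j := ⟨_, rfl⟩
  refine ⟨2 ^ T, 2 * A + 2, ?_⟩
  intro n hn k hk1 hk2
  have hT' : pT A j ≤ T := hT.ge
  have hn2 : 2 ≤ n := by omega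
  obtain ⟨h1, hbig, hTT, hkK, hlog, hp1, hp2, hl3, hl1, hl2⟩ := facts hA hj1 hT' hn2 hk1 hk2
  obtain ⟨c1, c2, c3, c4, c5, c6, c7, c8, c9, c10, c11, c12, c13⟩ :=
    conds hA hj1 hT' hn2 (by omega) hk1 hk2
  obtain ⟨F, hF1, hF2, hF3, hF4⟩ := hAB n (pM A j n k) k (pp A n k) (n / A) (pr A j k) (pl A j k)
    (2 * pd A j) (by omega) c1 c2 c3 c4 c5 c8 c9 c10 c11 c12 c13
  refine ⟨F, ?_, hF2, hF3, ?_⟩
  · calc F.card ≤ pM A j n k * 2 ^ k := hF1
      _ ≤ 2 ^ k * 2 ^ k := Nat.mul_le_mul_right _ c8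
      _ = 2 ^ (2 * k) := by rw [← pow_add]; congr 1; ring
  intro B q s D S hB hq hs hBk hD hR
  obtain ⟨t, m, ht, hDm, hqp, hBt, htn, hf⟩ := bounds hA hj1 hT' hn2 hk1 hk2 hB hq hs hBk hD
  set f := s + pr A j k * pp A n k + m * (kap (pr A j k) (pl A j k) * pp A n k) with hfd
  set p := pp A n k with hp
  set M := pM A j n k with hM
  set r := pr A j k with hr
  have hQ0 : 0 < (2 ^ j) ^ n := by positivity
  have hBall : ∀ z0 : Fin n → Bool, (Finset.univ.filter (fun zs => dis z0 zs ≤ f)).card ≤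
      (2 ^ j) ^ f * (2 ^ j + 1) ^ n / (2 ^ j) ^ n := by
    intro z0
    rw [Nat.le_div_iff_mul_le hQ0]
    have := hBAL (Fin n) f (2 ^ j) z0 Nat.one_le_two_pow
    rwa [Fintype.card_fin] at this
  have hfin := hF4 t m B q s D S _ (by omega) hqp ht hDm hBall hR
  have hBl := from_ball ((2 ^ j) ^ f * (2 ^ j + 1) ^ n / (2 ^ j) ^ n) j n f
    (Nat.div_mul_le_self _ _)
  have hCr := from_ball (Cr k r) j k r (Cr_bound k r (2 ^ j) Nat.one_le_two_pow)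
  set Bl := (2 ^ j) ^ f * (2 ^ j + 1) ^ n / (2 ^ j) ^ n with hBld
  set β := Nat.log 2 B with hβ
  set ln := Nat.log 2 n with hln
  set e := n / A with he
  have hBlt : B + 1 ≤ 2 ^ (β + 1) := Nat.lt_pow_succ_log_self (by norm_num) B
  have hnlt : n + 1 ≤ 2 ^ (ln + 1) := Nat.lt_pow_succ_log_self (by norm_num) n
  have e2 : ((t + 1 : ℕ) : ℝ) ≤ (2 : ℝ) ^ ((ln + 1 : ℕ) : ℝ) := rpow_nat_le (by omega)
  have e3 : ((B ^ t : ℕ) : ℝ) ≤ (2 : ℝ) ^ (((β + 1) * t : ℕ) : ℝ) := by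
    refine rpow_nat_le ?_
    rw [pow_mul]
    exact Nat.pow_le_pow_left (by omega) _
  have e4 : ((M : ℕ) : ℝ) ≤ (2 : ℝ) ^ ((py A j n k : ℕ) : ℝ) := rpow_nat_le c6
  have e5 : (((t + 1) * (B + 1) : ℕ) : ℝ) ≤ (2 : ℝ) ^ ((ln + 1 + (β + 1) : ℕ) : ℝ) := by
    refine rpow_nat_le ?_
    rw [pow_add]
    exact Nat.mul_le_mul (by omega) hBlt
  set x1 : ℝ := (j : ℝ) * f + (2 / 2 ^ j) * (n : ℝ) with hx1
  set x6 : ℝ := (j : ℝ) * r + (2 / 2 ^ j) * (k : ℝ) with hx6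
  -- the inequality in the reals
  have hreal : (2 : ℝ) ^ (n : ℝ) ≤ S * (2 : ℝ) ^ (x1 + ((ln + 1 : ℕ) : ℝ) + (((β + 1) * t : ℕ) : ℝ) +
      ((py A j n k : ℕ) + ((ln + 1 + (β + 1) : ℕ) : ℝ) + 2 * x6) * (p : ℝ) + (e : ℝ)) := by
    have hcast : (2 : ℝ) ^ n ≤ (Bl : ℝ) * (S * (((t + 1 : ℕ) : ℝ) * ((B ^ t : ℕ) : ℝ)) *
        (((M : ℝ) * (((t + 1) * (B + 1) : ℕ) : ℝ) * (Cr k r : ℝ) ^ 2) ^ p * (2 : ℝ) ^ e)) := by
      exact_mod_cast hfin
    rw [← Real.rpow_natCast] at hcast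
    refine hcast.trans ?_
    have hpow : ((M : ℝ) * (((t + 1) * (B + 1) : ℕ) : ℝ) * (Cr k r : ℝ) ^ 2) ^ p ≤
        (2 : ℝ) ^ (((py A j n k : ℕ) + ((ln + 1 + (β + 1) : ℕ) : ℝ) + 2 * x6) * (p : ℝ)) := by
      rw [Real.rpow_mul (by norm_num), Real.rpow_natCast]
      refine pow_le_pow_left₀ (by positivity) ?_ p
      rw [Real.rpow_add (by norm_num), Real.rpow_add (by norm_num)]
      refine mul_le_mul (mul_le_mul e4 e5 (by positivity) (by positivity)) ?_ (by positivity)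
        (by positivity)
      calc (Cr k r : ℝ) ^ 2 ≤ ((2 : ℝ) ^ x6) ^ 2 := pow_le_pow_left₀ (by positivity) hCr 2
        _ = (2 : ℝ) ^ (2 * x6) := by
            rw [← Real.rpow_natCast, ← Real.rpow_mul (by norm_num)]
            congr 1
            push_cast
            ring
    rw [Real.rpow_add (by norm_num), Real.rpow_add (by norm_num), Real.rpow_add (by norm_num),
      Real.rpow_add (by norm_num), Real.rpow_natCast 2 e]
    have hS0 : (0 : ℝ) ≤ S := by positivity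
    calc (Bl : ℝ) * (S * (((t + 1 : ℕ) : ℝ) * ((B ^ t : ℕ) : ℝ)) *
        (((M : ℝ) * (((t + 1) * (B + 1) : ℕ) : ℝ) * (Cr k r : ℝ) ^ 2) ^ p * (2 : ℝ) ^ e))
        ≤ (2 : ℝ) ^ x1 * (S * ((2 : ℝ) ^ ((ln + 1 : ℕ) : ℝ) * (2 : ℝ) ^ (((β + 1) * t : ℕ) : ℝ)) *
        ((2 : ℝ) ^ (((py A j n k : ℕ) + ((ln + 1 + (β + 1) : ℕ) : ℝ) + 2 * x6) * (p : ℝ)) *
          (2 : ℝ) ^ e)) := by
          refine mul_le_mul hBl ?_ (by positivity) (by positivity)
          refine mul_le_mul ?_ ?_ (by positivity) (by positivity)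
          · exact mul_le_mul_of_nonneg_left (mul_le_mul e2 e3 (by positivity) (by positivity)) hS0
          · exact mul_le_mul_of_nonneg_right hpow (by positivity)
      _ = _ := by ring
  -- the exponents
  have hAr : (0 : ℝ) < A := by exact_mod_cast hA
  have hjr : (0 : ℝ) < j := by exact_mod_cast hj1
  have hQr : (36 : ℝ) * A ^ 2 ≤ 2 ^ j := by exact_mod_cast hjQ
  have hQpos : (0 : ℝ) < 2 ^ j := by positivity
  have hkn : k ≤ n := c9
  have hd0 : 0 < pd A j := by unfold pd; positivity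
  have hA6 : A ≤ j ^ 2 * A ^ 6 := by
    calc A = 1 * A ^ 1 := by ring
      _ ≤ j ^ 2 * A ^ 6 := Nat.mul_le_mul (Nat.one_le_iff_ne_zero.2 (by positivity))
          (Nat.pow_le_pow_right hA (by norm_num))
  have hA26 : A ^ 2 ≤ j ^ 2 * A ^ 6 := by
    calc A ^ 2 = 1 * A ^ 2 := by ring
      _ ≤ j ^ 2 * A ^ 6 := Nat.mul_le_mul (Nat.one_le_iff_ne_zero.2 (by positivity))
          (Nat.pow_le_pow_right hA (by norm_num))
  have hAT : 400000 * A ≤ T := by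
    calc 400000 * A ≤ 400000 * (j ^ 2 * A ^ 6) := Nat.mul_le_mul_left _ hA6
      _ = 400000 * j ^ 2 * A ^ 6 := by ring
      _ ≤ T := hbig
  have hA2T : 400000 * A ^ 2 ≤ T := by
    calc 400000 * A ^ 2 ≤ 400000 * (j ^ 2 * A ^ 6) := Nat.mul_le_mul_left _ hA26
      _ = 400000 * j ^ 2 * A ^ 6 := by ring
      _ ≤ T := hbig
  have hKn : T * ln ≤ k := (Nat.mul_le_mul_right _ hTT.le).trans hk1
  have hKB : T * β ≤ k := (Nat.mul_le_mul_right _ hTT.le).trans hBk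
  have hβ1 : 1 ≤ β := Nat.log_pos (by norm_num) hB
  -- x2
  have b2 : A * (ln + 1) ≤ n := by
    calc A * (ln + 1) ≤ A * (2 * ln) := Nat.mul_le_mul_left _ (by omega)
      _ = 2 * A * ln := by ring
      _ ≤ T * ln := Nat.mul_le_mul_right _ (by omega)
      _ ≤ n := hKn.trans hkn
  -- M
  have b4 : A * (py A j n k * p) ≤ n := by
    have e1 : A * (py A j n k * p) * (9 * A) ≤ n * (9 * A) := by
      calc A * (py A j n k * p) * (9 * A) = 9 * A ^ 2 * py A j n k * p := by ring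
        _ ≤ k * p := Nat.mul_le_mul_right _ c7
        _ = p * k := mul_comm _ _
        _ ≤ 9 * A * n := hp2
        _ = n * (9 * A) := by ring
    exact Nat.le_of_mul_le_mul_right e1 (by positivity)
  have b5 : A * ((ln + 1 + (β + 1)) * p) ≤ n := by
    have e1 : A * ((ln + 1 + (β + 1)) * p) * (9 * A) ≤ n * (9 * A) := by
      have e2 : 9 * A ^ 2 * (ln + 1 + (β + 1)) ≤ k := by
        have e3 : 2 * (18 * A ^ 2 * ln) ≤ k := by
          calc 2 * (18 * A ^ 2 * ln) = 36 * A ^ 2 * ln := by ring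
            _ ≤ T * ln := Nat.mul_le_mul_right _ (by omega)
            _ ≤ k := hKn
        have e4 : 2 * (18 * A ^ 2 * β) ≤ k := by
          calc 2 * (18 * A ^ 2 * β) = 36 * A ^ 2 * β := by ring
            _ ≤ T * β := Nat.mul_le_mul_right _ (by omega)
            _ ≤ k := hKB
        calc 9 * A ^ 2 * (ln + 1 + (β + 1)) ≤ 9 * A ^ 2 * (2 * ln + 2 * β) :=
              Nat.mul_le_mul_left _ (by omega)
          _ = 18 * A ^ 2 * ln + 18 * A ^ 2 * β := by ring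
          _ ≤ k := by omega
      calc A * ((ln + 1 + (β + 1)) * p) * (9 * A) = 9 * A ^ 2 * (ln + 1 + (β + 1)) * p := by ring
        _ ≤ k * p := Nat.mul_le_mul_right _ e2
        _ = p * k := mul_comm _ _
        _ ≤ 9 * A * n := hp2
        _ = n * (9 * A) := by ring
    exact Nat.le_of_mul_le_mul_right e1 (by positivity)
  have b6 : 2 * j * A * (r * p) ≤ n := by
    have hrd : r * pd A j ≤ k := Nat.div_mul_le_self _ _
    have e1 : 2 * j * A * (r * p) * (9 * A) ≤ n * (9 * A) := by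
      calc 2 * j * A * (r * p) * (9 * A) = r * pd A j * p := by unfold pd; ring
        _ ≤ k * p := Nat.mul_le_mul_right _ hrd
        _ = p * k := mul_comm _ _
        _ ≤ 9 * A * n := hp2
        _ = n * (9 * A) := by ring
    exact Nat.le_of_mul_le_mul_right e1 (by positivity)
  have b7 : A * e ≤ n := by rw [he, mul_comm]; exact Nat.div_mul_le_self _ _
  -- casts
  have r1 : (2 : ℝ) * j * A * f ≤ 3 * n := by exact_mod_cast hf
  have r2 : (A : ℝ) * ((ln + 1 : ℕ) : ℝ) ≤ n := by exact_mod_cast b2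
  have r3 : (A : ℝ) * (((β + 1) * t : ℕ) : ℝ) ≤ n := by exact_mod_cast hBt
  have r4 : (A : ℝ) * ((py A j n k : ℕ) * (p : ℝ)) ≤ n := by exact_mod_cast b4
  have r5 : (A : ℝ) * (((ln + 1 + (β + 1) : ℕ) : ℝ) * (p : ℝ)) ≤ n := by exact_mod_cast b5
  have r6 : (2 : ℝ) * j * A * (r * p) ≤ n := by exact_mod_cast b6
  have r7 : (A : ℝ) * e ≤ n := by exact_mod_cast b7
  have r8 : (k : ℝ) * p ≤ 9 * A * n := by
    have : k * p ≤ 9 * A * n := by rw [mul_comm]; exact hp2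
    exact_mod_cast this
  have hn0 : (0 : ℝ) ≤ n := by positivity
  have q1 : A * (2 / 2 ^ j * (n : ℝ)) ≤ n / 18 := by
    have e1 : (2 : ℝ) / 2 ^ j ≤ 1 / (18 * A ^ 2) := by
      rw [div_le_div_iff₀ hQpos (by positivity)]
      linarith
    have e2 : A * (2 / 2 ^ j * (n : ℝ)) ≤ A * (1 / (18 * A ^ 2) * (n : ℝ)) := by
      refine mul_le_mul_of_nonneg_left (mul_le_mul_of_nonneg_right e1 hn0) hAr.le
    refine e2.trans ?_
    have e3 : (A : ℝ) * (1 / (18 * A ^ 2) * n) = n / 18 / A := by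
      field_simp
    rw [e3]
    refine div_le_self (by positivity) ?_
    exact_mod_cast hA
  have q2 : A * (2 / 2 ^ j * ((k : ℝ) * p)) ≤ n / 2 := by
    have e1 : (2 : ℝ) / 2 ^ j ≤ 1 / (18 * A ^ 2) := by
      rw [div_le_div_iff₀ hQpos (by positivity)]
      linarith
    have e2 : A * (2 / 2 ^ j * ((k : ℝ) * p)) ≤ A * (1 / (18 * A ^ 2) * (9 * A * n)) := by
      refine mul_le_mul_of_nonneg_left (mul_le_mul e1 r8 (by positivity) (by positivity)) hAr.le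
    refine e2.trans (le_of_eq ?_)
    field_simp
    ring
  have hsum : A * (x1 + ((ln + 1 : ℕ) : ℝ) + (((β + 1) * t : ℕ) : ℝ) +
      ((py A j n k : ℕ) + ((ln + 1 + (β + 1) : ℕ) : ℝ) + 2 * x6) * (p : ℝ) + (e : ℝ)) ≤ 9 * n := by
    have s1 : A * x1 = (1 / 2) * (2 * j * A * f) + A * (2 / 2 ^ j * (n : ℝ)) := by
      rw [hx1]; ring
    have s2 : (A : ℝ) * (2 * x6 * p) = (2 * j * A * (r * p)) + 2 * (A * (2 / 2 ^ j * ((k : ℝ) * p))) := by
      rw [hx6]; ring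
    have s3 : A * (x1 + ((ln + 1 : ℕ) : ℝ) + (((β + 1) * t : ℕ) : ℝ) +
      ((py A j n k : ℕ) + ((ln + 1 + (β + 1) : ℕ) : ℝ) + 2 * x6) * (p : ℝ) + (e : ℝ)) =
      A * x1 + A * ((ln + 1 : ℕ) : ℝ) + A * (((β + 1) * t : ℕ) : ℝ) +
      A * ((py A j n k : ℕ) * (p : ℝ)) + A * (((ln + 1 + (β + 1) : ℕ) : ℝ) * (p : ℝ)) +
      A * (2 * x6 * p) + A * e := by ring
    rw [s3, s1, s2]
    linarith
  -- conclusion
  set X : ℝ := x1 + ((ln + 1 : ℕ) : ℝ) + (((β + 1) * t : ℕ) : ℝ) +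
      ((py A j n k : ℕ) + ((ln + 1 + (β + 1) : ℕ) : ℝ) + 2 * x6) * (p : ℝ) + (e : ℝ) with hX
  have hXε : X ≤ ε * n := by
    have e1 : A * X ≤ A * (ε * n) := by
      refine hsum.trans ?_
      calc (9 : ℝ) * n ≤ ε * A * n := mul_le_mul_of_nonneg_right hAε hn0
        _ = A * (ε * n) := by ring
    exact le_of_mul_le_mul_left e1 hAr
  have hfinal : (2 : ℝ) ^ ((1 - ε) * n) * (2 : ℝ) ^ X ≤ S * (2 : ℝ) ^ X := by
    refine le_trans ?_ hreal
    rw [← Real.rpow_add (by norm_num)]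
    refine Real.rpow_le_rpow_of_exponent_le (by norm_num) ?_
    linarith
  exact le_of_mul_le_mul_right hfinal (by positivity)

end Pool.Agent.H78.UN
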