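import Pool.Agent.H78.UN.Basic

/-! The static count. -/

set_option linter.unusedSectionVars false

namespace Pool.Agent.H78.UN

open Finset

section
variable {V : Type} [DecidableEq V] {M S : ℕ} (sc : Fin M → Finset V) (r : ℕ)
  (W : Fin S → Finset V) (o : Fin S → V → Bool) (U : Finset (Fin S)) (z : V → Bool)

/-- Codes: constraint, line, exceptional places, exceptional places with value `true`. -/
abbrev Cd (V : Type) (M S : ℕ) : Type := (Fin M × Fin S) × (Finset V × Finset V)

/-- The constraints of a list of codes. -/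
def JL (L : List (Cd V M S)) : Finset (Fin M) := (L.map (fun x => x.1.1)).toFinset

/-- The assignment has the given code. -/
def Rl : List (Cd V M S) → Prop
  | [] => True
  | x :: L => Rl L ∧ x.2.1 = sc x.1.1 \ (ag (W x.1.2) (o x.1.2) z ∪ VJ sc (JL L)) ∧
      x.2.2 = x.2.1.filter (fun y => z y = true)

/-- The small subsets. -/
def Sb (c : Fin M) : Finset (Finset V) := (sc c).powerset.filter (fun E => E.card < r)

/-- The alphabet. -/
def Al : Finset (Cd V M S) :=
  ((Finset.univ : Finset (Fin M)) ×ˢ U).biUnion (fun y => ({y} : Finset (Fin M × Fin S)) ×ˢ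
    (Sb sc r y.1 ×ˢ Sb sc r y.1))

/-- The lists of codes. -/
def LL : ℕ → Finset (List (Cd V M S))
  | 0 => {[]}
  | i + 1 => (Al sc r U ×ˢ LL i).image (fun y => y.1 :: y.2)

theorem JL_cons (x : Cd V M S) (L : List (Cd V M S)) : JL (x :: L) = insert x.1.1 (JL L) := by
  simp [JL]

theorem Sb_card {k : ℕ} {c : Fin M} (h : (sc c).card = k) : (Sb sc r c).card ≤ Cr k r := by
  classical
  have h1 : Sb sc r c ⊆ (Finset.range r).biUnion (fun i => (sc c).powersetCard i) := by
    intro E hE
    obtain ⟨h1, h2⟩ := Finset.mem_filter.1 hE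
    refine Finset.mem_biUnion.2 ⟨E.card, Finset.mem_range.2 h2, ?_⟩
    exact Finset.mem_powersetCard.2 ⟨Finset.mem_powerset.1 h1, rfl⟩
  refine (Finset.card_le_card h1).trans (Finset.card_biUnion_le.trans ?_)
  unfold Cr
  refine Finset.sum_le_sum fun i _ => ?_
  rw [Finset.card_powersetCard, h]

theorem Al_card {k : ℕ} (h : ∀ c, (sc c).card = k) :
    (Al sc r U).card ≤ M * U.card * Cr k r ^ 2 := by
  unfold Al
  refine Finset.card_biUnion_le.trans ?_
  calc ∑ y ∈ (Finset.univ : Finset (Fin M)) ×ˢ U, (({y} : Finset (Fin M × Fin S)) ×ˢ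
        (Sb sc r y.1 ×ˢ Sb sc r y.1)).card
      ≤ ∑ y ∈ (Finset.univ : Finset (Fin M)) ×ˢ U, Cr k r ^ 2 := by
        refine Finset.sum_le_sum fun y _ => ?_
        rw [Finset.card_product, Finset.card_singleton, one_mul, Finset.card_product, sq]
        exact Nat.mul_le_mul (Sb_card sc r (h _)) (Sb_card sc r (h _))
    _ = M * U.card * Cr k r ^ 2 := by
        rw [Finset.sum_const, Finset.card_product, smul_eq_mul, Finset.card_univ, Fintype.card_fin]

theorem LL_card {a : ℕ} (h : (Al sc r U).card ≤ a) (i : ℕ) : (LL sc r U i).card ≤ a ^ i := by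
  induction i with
  | zero => simp [LL]
  | succ i ih =>
    simp only [LL]
    refine Finset.card_image_le.trans ?_
    rw [Finset.card_product, pow_succ, mul_comm]
    exact Nat.mul_le_mul ih h

variable {sc r W o U z}

theorem Cov.sub {J : Finset (Fin M)} (h : Cov sc r W o U z J) :
    ∀ i ≤ J.card, ∃ J', Cov sc r W o U z J' ∧ J'.card = i := by
  induction h with
  | nil =>
    intro i hi
    rw [Finset.card_empty] at hi
    exact ⟨∅, Cov.nil, by rw [Finset.card_empty]; omega⟩
  | @cons J c u h1 h2 h3 h4 ih =>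
    intro i hi
    rcases Nat.lt_or_eq_of_le hi with h | h
    · rw [Finset.card_insert_of_notMem h2] at h
      exact ih i (by omega)
    · exact ⟨insert c J, Cov.cons h1 h2 h3 h4, h.symm⟩

theorem Cov.code {J : Finset (Fin M)} (h : Cov sc r W o U z J) :
    ∃ L ∈ LL sc r U J.card, Rl sc W o z L ∧ JL L = J := by
  induction h with
  | nil => exact ⟨[], by simp [LL], trivial, by simp [JL]⟩
  | @cons J c u h1 h2 h3 h4 ih =>
    obtain ⟨L, hL, hR, hJ⟩ := ih
    set E := sc c \ (ag (W u) (o u) z ∪ VJ sc J) with hE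
    refine ⟨((c, u), (E, E.filter (fun y => z y = true))) :: L, ?_, ⟨hR, ?_, rfl⟩, ?_⟩
    · rw [Finset.card_insert_of_notMem h2]
      simp only [LL]
      refine Finset.mem_image.2 ⟨(((c, u), (E, E.filter (fun y => z y = true))), L), ?_, rfl⟩
      refine Finset.mem_product.2 ⟨?_, hL⟩
      unfold Al
      refine Finset.mem_biUnion.2 ⟨(c, u), ?_, ?_⟩
      · exact Finset.mem_product.2 ⟨Finset.mem_univ _, h3⟩
      · refine Finset.mem_product.2 ⟨Finset.mem_singleton_self _, ?_⟩
        refine Finset.mem_product.2 ⟨?_, ?_⟩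
        · exact Finset.mem_filter.2 ⟨Finset.mem_powerset.2 Finset.sdiff_subset, h4⟩
        · exact Finset.mem_filter.2 ⟨Finset.mem_powerset.2
            ((Finset.filter_subset _ _).trans Finset.sdiff_subset),
            lt_of_le_of_lt (Finset.card_le_card (Finset.filter_subset _ _)) h4⟩
    · rw [hJ]
    · rw [JL_cons, hJ]

theorem Rl.agree {z' : V → Bool} : ∀ {L : List (Cd V M S)}, Rl sc W o z L → Rl sc W o z' L →
    ∀ x ∈ VJ sc (JL L), z x = z' x
  | [], _, _ => by
    intro x hx
    simp [JL, VJ] at hx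
  | y :: L, h, h' => by
    intro x hx
    obtain ⟨h1, h2, h3⟩ := h
    obtain ⟨h1', h2', h3'⟩ := h'
    have ih := Rl.agree h1 h1'
    by_cases hxL : x ∈ VJ sc (JL L)
    · exact ih x hxL
    · rw [JL_cons, VJ_insert] at hx
      have hxc : x ∈ sc y.1.1 := by
        rcases Finset.mem_union.1 hx with h | h
        · exact h
        · exact absurd h hxL
      by_cases hxE : x ∈ y.2.1
      · have e1 : x ∈ y.2.2 ↔ z x = true := by
          rw [h3]
          simp [hxE]
        have e2 : x ∈ y.2.2 ↔ z' x = true := by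
          rw [h3']
          simp [hxE]
        have e3 := e1.symm.trans e2
        cases hz : z x <;> cases hz' : z' x <;> simp_all
      · have e1 : z x = o y.1.2 x := by
          by_contra hne
          refine hxE ?_
          rw [h2]
          refine Finset.mem_sdiff.2 ⟨hxc, fun h => ?_⟩
          rcases Finset.mem_union.1 h with h | h
          · exact hne (mem_ag.1 h).2
          · exact hxL h
        have e2 : z' x = o y.1.2 x := by
          by_contra hne
          refine hxE ?_
          rw [h2']
          refine Finset.mem_sdiff.2 ⟨hxc, fun h => ?_⟩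
          rcases Finset.mem_union.1 h with h | h
          · exact hne (mem_ag.1 h).2
          · exact hxL h
        rw [e1, e2]

end

/-- Assignments which agree on `X`. -/
theorem agree_card {V : Type} [Fintype V] [DecidableEq V] (X : Finset V) (Z : Finset (V → Bool))
    (h : ∀ z ∈ Z, ∀ z' ∈ Z, ∀ x ∈ X, z x = z' x) : Z.card ≤ 2 ^ (Fintype.card V - X.card) := by
  classical
  have h1 : Z.card ≤ (Finset.univ : Finset ((↥(Xᶜ)) → Bool)).card := by
    refine Finset.card_le_card_of_injOn (fun z x => z x.1) (fun _ _ => Finset.mem_univ _) ?_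
    intro z hz z' hz' he
    funext x
    by_cases hx : x ∈ X
    · exact h z hz z' hz' x hx
    · exact congrFun he ⟨x, Finset.mem_compl.2 hx⟩
  refine h1.trans (le_of_eq ?_)
  rw [Finset.card_univ, Fintype.card_fun, Fintype.card_bool, Fintype.card_coe, Finset.card_compl]

/-- The static count. -/
theorem scc : T_SC := by
  classical
  intro V _ _ M p e r k S sc W o U h1 hk Z hZ
  have hsub : Z ⊆ ((LL sc r U p).filter (fun L => (JL L).card = p)).biUnion
      (fun L => Finset.univ.filter (fun z => Rl sc W o z L)) := by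
    intro z hz
    obtain ⟨J, hJ, hp⟩ := hZ z hz
    obtain ⟨J', hJ', hp'⟩ := hJ.sub p hp
    obtain ⟨L, hL, hR, hJL⟩ := hJ'.code
    rw [hp'] at hL
    refine Finset.mem_biUnion.2 ⟨L, Finset.mem_filter.2 ⟨hL, by rw [hJL, hp']⟩, ?_⟩
    exact Finset.mem_filter.2 ⟨Finset.mem_univ _, hR⟩
  refine (Finset.card_le_card hsub).trans (Finset.card_biUnion_le.trans ?_)
  calc ∑ L ∈ (LL sc r U p).filter (fun L => (JL L).card = p),
        (Finset.univ.filter (fun z => Rl sc W o z L)).card
      ≤ ∑ L ∈ (LL sc r U p).filter (fun L => (JL L).card = p), 2 ^ e := by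
        refine Finset.sum_le_sum fun L hL => ?_
        have hc := h1 (JL L) (Finset.mem_filter.1 hL).2
        refine (agree_card (VJ sc (JL L)) _ ?_).trans
          (Nat.pow_le_pow_right (by norm_num) (by omega))
        intro z hz z' hz' x hx
        exact Rl.agree (Finset.mem_filter.1 hz).2 (Finset.mem_filter.1 hz').2 x hx
    _ = ((LL sc r U p).filter (fun L => (JL L).card = p)).card * 2 ^ e := by
        rw [Finset.sum_const, smul_eq_mul]
    _ ≤ (M * U.card * Cr k r ^ 2) ^ p * 2 ^ e := by
        refine Nat.mul_le_mul_right _ ?_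
        exact (Finset.card_le_card (Finset.filter_subset _ _)).trans
          (LL_card sc r U (Al_card sc r U hk) p)

end Pool.Agent.H78.UN
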