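import Pool.Agent.H78.UN.Targets

/-! Numerical lemmas. -/

namespace Pool.Agent.H78.UN

open Finset

theorem Cr_bound (k r Q : ℕ) (hQ : 1 ≤ Q) : Cr k r * Q ^ k ≤ Q ^ r * (Q + 1) ^ k := by
  have h1 : (Q + 1) ^ k = ∑ i ∈ Finset.range (k + 1), Q ^ (k - i) * k.choose i := by
    rw [add_comm Q 1, add_pow]
    exact Finset.sum_congr rfl fun i _ => by simp
  unfold Cr
  rw [Finset.sum_mul, h1, Finset.mul_sum]
  have h2 : ∑ i ∈ Finset.range r, k.choose i * Q ^ k =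
      ∑ i ∈ (Finset.range r).filter (fun i => i ∈ Finset.range (k + 1)), k.choose i * Q ^ k := by
    rw [Finset.sum_filter]
    refine Finset.sum_congr rfl fun i _ => ?_
    by_cases h : i ∈ Finset.range (k + 1)
    · rw [if_pos h]
    · rw [if_neg h, Nat.choose_eq_zero_of_lt, zero_mul]
      rw [Finset.mem_range] at h
      omega
  rw [h2]
  refine (Finset.sum_le_sum (g := fun i => Q ^ r * (Q ^ (k - i) * k.choose i)) ?_).trans
    (Finset.sum_le_sum_of_subset ?_)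
  · intro i hi
    obtain ⟨hi1, hi2⟩ := Finset.mem_filter.1 hi
    rw [Finset.mem_range] at hi1 hi2
    rw [← mul_assoc, ← pow_add, mul_comm]
    exact Nat.mul_le_mul_right _ (Nat.pow_le_pow_right hQ (by omega))
  · intro i hi
    exact (Finset.mem_filter.1 hi).2

theorem two_exp (u : ℝ) (hu : 0 ≤ u) : 1 + u ≤ (2 : ℝ) ^ (2 * u) := by
  have h1 := Real.add_one_le_exp u
  have h2 : Real.exp u ≤ (2 : ℝ) ^ (2 * u) := by
    rw [Real.rpow_def_of_pos (by norm_num)]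
    refine Real.exp_le_exp.2 ?_
    have h3 := Real.log_two_gt_d9
    nlinarith
  linarith

/-- `(1 + 2^(-j))^x ≤ 2^(2 x / 2^j)`. -/
theorem one_add_pow (j x : ℕ) : (1 + 1 / (2 : ℝ) ^ j) ^ x ≤ (2 : ℝ) ^ ((2 / 2 ^ j) * (x : ℝ)) := by
  have h1 := two_exp (1 / (2 : ℝ) ^ j) (by positivity)
  have h2 : (2 : ℝ) * (1 / 2 ^ j) = 2 / 2 ^ j := by ring
  rw [h2] at h1
  rw [Real.rpow_mul (by norm_num), Real.rpow_natCast]
  exact pow_le_pow_left₀ (by positivity) h1 x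

/-- From `a Q^x ≤ Q^y (Q+1)^x` with `Q = 2^j` to `a ≤ 2^(j y + 2 x / 2^j)`. -/
theorem from_ball (a j x y : ℕ) (h : a * (2 ^ j) ^ x ≤ (2 ^ j) ^ y * (2 ^ j + 1) ^ x) :
    (a : ℝ) ≤ (2 : ℝ) ^ ((j : ℝ) * y + (2 / 2 ^ j) * (x : ℝ)) := by
  have h1 : (a : ℝ) * ((2 : ℝ) ^ j) ^ x ≤ ((2 : ℝ) ^ j) ^ y * ((2 : ℝ) ^ j + 1) ^ x := by
    exact_mod_cast h
  have hQ : (0 : ℝ) < (2 : ℝ) ^ j := by positivity
  have h2 : (2 : ℝ) ^ j + 1 = (2 : ℝ) ^ j * (1 + 1 / (2 : ℝ) ^ j) := by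
    field_simp
  rw [h2, mul_pow] at h1
  have h3 : (a : ℝ) ≤ ((2 : ℝ) ^ j) ^ y * (1 + 1 / (2 : ℝ) ^ j) ^ x := by
    have h4 : (0 : ℝ) < ((2 : ℝ) ^ j) ^ x := by positivity
    refine le_of_mul_le_mul_right ?_ h4
    calc (a : ℝ) * ((2 : ℝ) ^ j) ^ x ≤
        ((2 : ℝ) ^ j) ^ y * (((2 : ℝ) ^ j) ^ x * (1 + 1 / (2 : ℝ) ^ j) ^ x) := h1
      _ = _ := by ring
  refine h3.trans ?_
  rw [Real.rpow_add (by norm_num)]
  refine mul_le_mul (le_of_eq ?_) (one_add_pow j x) (by positivity) (by positivity)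
  rw [← pow_mul, ← Nat.cast_mul, Real.rpow_natCast]

/-- Logarithms are small. -/
theorem log_small {T C k : ℕ} (hT : 4 ≤ T) (hC : C ≤ T) (hk : 2 ^ T ≤ k) :
    C * Nat.log 2 k ≤ k := by
  have hk0 : k ≠ 0 := by
    have := Nat.two_pow_pos T
    omega
  have h1 : T ≤ Nat.log 2 k := (Nat.le_log_iff_pow_le (by norm_num) hk0).2 hk
  have h2 : 2 ^ Nat.log 2 k ≤ k := Nat.pow_log_le_self 2 hk0
  have h3 : ∀ m : ℕ, 4 ≤ m → m * m ≤ 2 ^ m := by
    intro m hm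
    induction m, hm using Nat.le_induction with
    | base => norm_num
    | succ m hm ih =>
      rw [pow_succ]
      nlinarith
  calc C * Nat.log 2 k ≤ Nat.log 2 k * Nat.log 2 k := Nat.mul_le_mul_right _ (hC.trans h1)
    _ ≤ 2 ^ Nat.log 2 k := h3 _ (hT.trans h1)
    _ ≤ k := h2

end Pool.Agent.H78.UN
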