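import Pool.Agent.H78.UN.Basic

/-! The steps of the adversary. -/

set_option linter.unusedSectionVars false

namespace Pool.Agent.H78.UN

open Finset

/-- Repair of the new constraints. -/
theorem repair (hFIX : T_FIX) {V : Type} [DecidableEq V] {M p r l S : ℕ} (I : Inst V M l)
    {A : Fin S → Set (V → Bool)} {W : Fin S → Finset V} {o : Fin S → V → Bool}
    (h5 : E5 I.sc p r l) (hl : 1 ≤ l) (hlr : 2 * l ≤ r)
    (hA : ∀ v, ∀ z ∈ A v, ∀ z' : V → Bool, (∀ x ∈ W v, z' x = z x ∨ z' x = o v x) → z' ∈ A v)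
    {a : Fin S} {z : V → Bool} {J J' : Finset (Fin M)} (hz : z ∈ A a)
    (hsat : ∀ c ∈ J, ¬ I.vio c z)
    (hfree : ∀ c, c ∉ J → r ≤ (I.sc c \ (ag (W a) (o a) z ∪ VJ I.sc J)).card)
    (hJ : J ⊆ J') (hp : J'.card ≤ p) :
    ∃ Y : Finset V, Disjoint Y (VJ I.sc J) ∧ Y ⊆ VJ I.sc J' ∧ flp z Y ∈ A a ∧
      (∀ c ∈ J', ¬ I.vio c (flp z Y)) ∧ Y.card + kap r l * J.card ≤ kap r l * J'.card := by
  obtain ⟨Y, hY1, hY2, hY3, hY4⟩ := hFIX V M p r l I (J' \ J) (ag (W a) (o a) z ∪ VJ I.sc J) z
    h5 hl hlr ((Finset.card_le_card Finset.sdiff_subset).trans hp)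
    (fun c hc => hfree c (Finset.mem_sdiff.1 hc).2)
  have hd : Disjoint Y (VJ I.sc J) := Finset.disjoint_of_subset_right Finset.subset_union_right hY1
  refine ⟨Y, hd, hY2.trans (VJ_mono Finset.sdiff_subset), ?_, ?_, ?_⟩
  · refine mem_flp hA hz fun x hx h => ?_
    exact Finset.disjoint_left.1 hY1 hx (Finset.mem_union_left _ h)
  · intro c hc hv
    by_cases hcJ : c ∈ J
    · refine hsat c hcJ (I.loc c _ _ ?_ hv)
      intro x hx
      have h1 : x ∉ Y := fun h => Finset.disjoint_left.1 hd h (sc_sub_VJ hcJ hx)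
      simp [flp, h1]
    · exact hY3 c (Finset.mem_sdiff.2 ⟨hc, hcJ⟩) hv
  · rw [Finset.card_sdiff_of_subset hJ] at hY4
    have h1 := Finset.card_le_card hJ
    calc Y.card + kap r l * J.card ≤ kap r l * (J'.card - J.card) + kap r l * J.card :=
          Nat.add_le_add_right hY4 _
      _ = kap r l * J'.card := by rw [← Nat.mul_add, Nat.sub_add_cancel h1]

/-- Start of a phase. -/
theorem sta (hFIX : T_FIX) (hMAX : T_MAX) : T_STA := by
  intro V _ _ M p r l t f S I A W o P zs z0 v h5 hl hlr hA hG hf hB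
  obtain ⟨hz, J0, hc0, hclo0, hs0⟩ := hB
  have hsub : ({v} : Finset (Fin S)) ⊆ insert v (P v) := by
    intro x hx
    rw [Finset.mem_singleton.1 hx]
    exact Finset.mem_insert_self _ _
  have hc1 := hc0.mono hsub
  obtain ⟨J, hJ, hcov, hclo⟩ := hMAX V M r S I.sc W o (insert v (P v)) z0 J0 hc1
  have hlt : J.card < p := hG z0 hf v 0 (Nat.zero_le _) (v, insert v (P v))
    (by simp [PS]) J hcov
  obtain ⟨Y, hY1, hY2, hY3, hY4, hY5⟩ := repair hFIX I h5 hl hlr hA hz hs0
    (fun c hc => hclo0 v (Finset.mem_singleton_self _) c hc) hJ hlt.le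
  refine ⟨flp z0 Y, J, by simp [PS], hY3, hcov, hclo, hY4, ?_, ?_⟩
  · intro x hx
    exact flp_of_notMem fun h => hx (hY2 h)
  · exact (dis_flp _ _).trans ((Nat.le_add_right _ _).trans hY5)

/-- One step. -/
theorem ste (hFIX : T_FIX) (hMAX : T_MAX) : T_STE := by
  intro V _ _ M p r l t f S I A W o P zs z0 v0 v a j U z J h5 hl hlr hA hG hf hj hS ha hz
  have haU : a ∈ U := PS_sub hS.path (Finset.mem_insert_of_mem ha)
  have hp1 : (a, U ∪ insert a (P a)) ∈ PS P v0 (j + 1) := by
    simp only [PS, Finset.mem_biUnion, Finset.mem_image]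
    exact ⟨(v, U), hS.path, a, ha, rfl⟩
  obtain ⟨J', hJ, hcov, hclo⟩ := hMAX V M r S I.sc W o (U ∪ insert a (P a)) z0 J
    (hS.cov.mono Finset.subset_union_left)
  have hlt : J'.card < p := hG z0 hf v0 (j + 1) hj _ hp1 J' hcov
  obtain ⟨Y, hY1, hY2, hY3, hY4, hY5⟩ := repair hFIX I h5 hl hlr hA hz hS.sat
    (fun c hc => by rw [ag_union hS.off]; exact hS.clo a haU c hc) hJ hlt.le
  refine ⟨flp z Y, J', hp1, hY3, hcov, hclo, hY4, ?_, ?_⟩
  · intro x hx
    rw [flp_of_notMem fun h => hx (hY2 h)]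
    exact hS.off x fun h => hx (VJ_mono hJ h)
  · have h1 := dis_tri (flp z Y) z z0
    have h2 := dis_flp z Y
    have h3 := hS.dist
    omega

/-- From a state to the start of a phase. -/
theorem bas : T_BAS := by
  intro V _ _ M r l κ S I A W o P z0 v0 v u j U z J hS hu hz
  obtain ⟨J0, hJ0, hcov, hmax⟩ := mx_sub (sc := I.sc) (r := r) (W := W) (o := o) (U := {u})
    (z := z) J
  refine ⟨hz, J0, hcov, ?_, fun c hc => hS.sat c (hJ0 hc)⟩
  intro u' hu' c hc
  rw [Finset.mem_singleton.1 hu']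
  by_cases hcJ : c ∈ J
  · exact hmax u (Finset.mem_singleton_self _) c hcJ hc
  · have h1 := hS.clo u hu c hcJ
    rw [← ag_union hS.off] at h1
    refine h1.trans (Finset.card_le_card ?_)
    exact Finset.sdiff_subset_sdiff (Finset.Subset.refl _)
      (Finset.union_subset_union (Finset.Subset.refl _) (VJ_mono hJ0))

theorem cov_card {V : Type} [DecidableEq V] {M r S : ℕ} {sc : Fin M → Finset V}
    {W : Fin S → Finset V} {o : Fin S → V → Bool} {v : Fin S} {z : V → Bool}
    {J : Finset (Fin M)} (h : Cov sc r W o {v} z J) :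
    (W v ∪ VJ sc J).card ≤ (W v).card + r * J.card := by
  induction h with
  | nil => simp [VJ_empty]
  | @cons J c u _ h2 h3 h4 ih =>
    rw [Finset.mem_singleton.1 h3] at h4
    rw [VJ_insert, Finset.card_insert_of_notMem h2]
    have h5 : W v ∪ (sc c ∪ VJ sc J) ⊆ (W v ∪ VJ sc J) ∪ (sc c \ (ag (W v) (o v) z ∪ VJ sc J)) := by
      intro x hx
      by_cases h6 : x ∈ W v ∪ VJ sc J
      · exact Finset.mem_union_left _ h6
      · refine Finset.mem_union_right _ (Finset.mem_sdiff.2 ⟨?_, ?_⟩)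
        · rw [Finset.mem_union, not_or] at h6
          rcases Finset.mem_union.1 hx with h | h
          · exact absurd h h6.1
          · rcases Finset.mem_union.1 h with h | h
            · exact h
            · exact absurd h h6.2
        · intro h
          refine h6 ?_
          rcases Finset.mem_union.1 h with h | h
          · exact Finset.mem_union_left _ (mem_ag.1 h).1
          · exact Finset.mem_union_right _ h
    have h6 := (Finset.card_le_card h5).trans (Finset.card_union_le _ _)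
    have h7 : r * (J.card + 1) = r * J.card + r := by ring
    omega

/-- Reset at a light line. -/
theorem res : T_RES := by
  intro V _ _ M p r l t f s S I A W o P zs z v hA hG hf hB hW
  obtain ⟨hz, J, hcov, hclo, hsat⟩ := hB
  have hsub : ({v} : Finset (Fin S)) ⊆ insert v (P v) := by
    intro x hx
    rw [Finset.mem_singleton.1 hx]
    exact Finset.mem_insert_self _ _
  have hlt : J.card < p := hG z hf v 0 (Nat.zero_le _) (v, insert v (P v))
    (by simp [PS]) J (hcov.mono hsub)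
  set z' : V → Bool := fun x => if x ∈ W v ∪ VJ I.sc J then z x else zs x with hz'
  have h1 : ∀ x ∈ W v ∪ VJ I.sc J, z' x = z x := by
    intro x hx
    simp only [hz']
    rw [if_pos hx]
  have h2 : ∀ u ∈ ({v} : Finset (Fin S)), ag (W u) (o u) z = ag (W u) (o u) z' := by
    intro u hu
    rw [Finset.mem_singleton.1 hu]
    exact ag_congr fun x hx => (h1 x (Finset.mem_union_left _ hx)).symm
  refine ⟨z', ⟨?_, J, hcov.congr h2, hclo.congr h2, ?_⟩, ?_⟩
  · exact hA v z hz z' fun x hx => Or.inl (h1 x (Finset.mem_union_left _ hx))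
  · intro c hc hv
    refine hsat c hc (I.loc c _ _ ?_ hv)
    intro x hx
    exact h1 x (Finset.mem_union_right _ (sc_sub_VJ hc hx))
  · refine (dis_le (Y := W v ∪ VJ I.sc J) ?_).trans ((cov_card hcov).trans ?_)
    · intro x hx
      simp only [hz']
      rw [if_neg hx]
    · exact Nat.add_le_add hW (Nat.mul_le_mul_left _ hlt.le)

/-- A state never sits at a leaf. -/
theorem lea (hFIX : T_FIX) : T_LEA := by
  classical
  intro V _ _ M p r l q S I F A W o P z0 v0 v j U z J Q h5 hl hlr hq hA hF hS hQF hQ h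
  have hvU : v ∈ U := PS_sub hS.path (Finset.mem_insert_self _ _)
  have : Nonempty (Fin M) := by
    obtain ⟨C, hC, -⟩ := h z hS.mem
    exact ⟨(hF C (hQF hC)).choose⟩
  choose! g hg using hF
  obtain ⟨Y, hY1, hY2, hY3, hY4⟩ := hFIX V M p r l I (Q.image g \ J)
    (ag (W v) (o v) z ∪ VJ I.sc J) z h5 hl hlr
    ((Finset.card_le_card Finset.sdiff_subset).trans (Finset.card_image_le.trans (hQ.trans hq)))
    (fun c hc => by
      rw [ag_union hS.off]
      exact hS.clo v hvU c (Finset.mem_sdiff.1 hc).2)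
  have hmem : flp z Y ∈ A v := mem_flp hA hS.mem fun x hx h =>
    Finset.disjoint_left.1 hY1 hx (Finset.mem_union_left _ h)
  obtain ⟨C, hC, hfal⟩ := h _ hmem
  have hv := hg C (hQF hC) _ hfal
  by_cases hcJ : g C ∈ J
  · refine hS.sat _ hcJ (I.loc _ _ _ ?_ hv)
    intro x hx
    have h1 : x ∉ Y := fun h => Finset.disjoint_left.1 hY1 h
      (Finset.mem_union_right _ (sc_sub_VJ hcJ hx))
    exact flp_of_notMem h1
  · exact hY3 _ (Finset.mem_sdiff.2 ⟨Finset.mem_image_of_mem _ hC, hcJ⟩) hv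

end Pool.Agent.H78.UN
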