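import Pool.Agent.H78.UN.Defs

/-! Targets of the board `un_modules`. -/

namespace Pool.Agent.H78.UN

open Finset

/-- The number of subsets with less than `r` elements of a set with `k` elements. -/
def Cr (k r : ℕ) : ℕ := ∑ i ∈ Finset.range r, k.choose i

/-- The factor for the number of flips. -/
def kap (r l : ℕ) : ℕ := 2 * (1 + r / (2 * l + 1))

/-- HALL: disjoint sets of private places. -/
def T_HALL : Prop := ∀ (V : Type) [DecidableEq V] (M p r l : ℕ) (sc : Fin M → Finset V)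
    (N : Finset (Fin M)) (R : Finset V), E5 sc p r l → 1 ≤ l → 2 * l ≤ r → N.card ≤ p →
  (∀ c ∈ N, r ≤ (sc c \ R).card) →
  ∃ Pc : Fin M → Finset V,
    (∀ c ∈ N, Pc c ⊆ sc c \ R ∧ 1 + (sc c \ R).card / (2 * l + 1) ≤ (Pc c).card) ∧
    ∀ c ∈ N, ∀ c' ∈ N, c ≠ c' → Disjoint (Pc c) (Pc c')

/-- GRE: greedy repair with private places. -/
def T_GRE : Prop := ∀ (V : Type) [DecidableEq V] (M l : ℕ) (I : Inst V M l)
    (N : Finset (Fin M)) (R : Finset V) (Pc : Fin M → Finset V) (z : V → Bool),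
  (∀ c ∈ N, Pc c ⊆ I.sc c \ R ∧ 1 + (I.sc c \ R).card / (2 * l + 1) ≤ (Pc c).card) →
  (∀ c ∈ N, ∀ c' ∈ N, c ≠ c' → Disjoint (Pc c) (Pc c')) →
  ∃ Y : Finset V, Y ⊆ N.biUnion Pc ∧ (∀ c ∈ N, ¬ I.vio c (flp z Y)) ∧
    ∀ c ∈ N, (Y ∩ Pc c).card * (2 * l + 1) ≤ (Y ∩ I.sc c).card + (2 * l + 1)

/-- BND: the number of flips. -/
def T_BND : Prop := ∀ (V : Type) [DecidableEq V] (M p r l : ℕ) (sc : Fin M → Finset V)
    (N : Finset (Fin M)) (Pc : Fin M → Finset V) (Y : Finset V), E5 sc p r l → N.card ≤ p →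
  (∀ c ∈ N, ∀ c' ∈ N, c ≠ c' → Disjoint (Pc c) (Pc c')) → Y ⊆ N.biUnion Pc →
  (∀ c ∈ N, (Y ∩ Pc c).card * (2 * l + 1) ≤ (Y ∩ sc c).card + (2 * l + 1)) →
  Y.card ≤ kap r l * N.card

/-- FIX: repair of the constraints in `N` without changes in `R`. -/
def T_FIX : Prop := ∀ (V : Type) [DecidableEq V] (M p r l : ℕ) (I : Inst V M l)
    (N : Finset (Fin M)) (R : Finset V) (z : V → Bool), E5 I.sc p r l → 1 ≤ l → 2 * l ≤ r →
  N.card ≤ p → (∀ c ∈ N, r ≤ (I.sc c \ R).card) →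
  ∃ Y : Finset V, Disjoint Y R ∧ Y ⊆ VJ I.sc N ∧ (∀ c ∈ N, ¬ I.vio c (flp z Y)) ∧
    Y.card ≤ kap r l * N.card

/-- MAX: every exposed set extends to a closed one. -/
def T_MAX : Prop := ∀ (V : Type) [DecidableEq V] (M r S : ℕ) (sc : Fin M → Finset V)
    (W : Fin S → Finset V) (o : Fin S → V → Bool) (U : Finset (Fin S)) (z : V → Bool)
    (J : Finset (Fin M)), Cov sc r W o U z J →
  ∃ J', J ⊆ J' ∧ Cov sc r W o U z J' ∧ Clo sc r W o U z J'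

/-- STA: start of a phase. -/
def T_STA : Prop := ∀ (V : Type) [Fintype V] [DecidableEq V] (M p r l t f S : ℕ)
    (I : Inst V M l) (A : Fin S → Set (V → Bool)) (W : Fin S → Finset V) (o : Fin S → V → Bool)
    (P : Fin S → Finset (Fin S)) (zs z0 : V → Bool) (v : Fin S),
  E5 I.sc p r l → 1 ≤ l → 2 * l ≤ r →
  (∀ v, ∀ z ∈ A v, ∀ z' : V → Bool, (∀ x ∈ W v, z' x = z x ∨ z' x = o v x) → z' ∈ A v) →
  Good I.sc r p t f W o P zs → dis z0 zs ≤ f → Base I.sc I.vio r A W o v z0 →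
  ∃ z J, State I.sc I.vio r (kap r l) A W o P v z0 0 v (insert v (P v)) z J

/-- STE: one step. -/
def T_STE : Prop := ∀ (V : Type) [Fintype V] [DecidableEq V] (M p r l t f S : ℕ)
    (I : Inst V M l) (A : Fin S → Set (V → Bool)) (W : Fin S → Finset V) (o : Fin S → V → Bool)
    (P : Fin S → Finset (Fin S)) (zs z0 : V → Bool) (v0 v a : Fin S) (j : ℕ)
    (U : Finset (Fin S)) (z : V → Bool) (J : Finset (Fin M)),
  E5 I.sc p r l → 1 ≤ l → 2 * l ≤ r →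
  (∀ v, ∀ z ∈ A v, ∀ z' : V → Bool, (∀ x ∈ W v, z' x = z x ∨ z' x = o v x) → z' ∈ A v) →
  Good I.sc r p t f W o P zs → dis z0 zs ≤ f → j + 1 ≤ t →
  State I.sc I.vio r (kap r l) A W o P v0 z0 j v U z J → a ∈ P v → z ∈ A a →
  ∃ z' J', State I.sc I.vio r (kap r l) A W o P v0 z0 (j + 1) a (U ∪ insert a (P a)) z' J'

/-- BAS: from a state to the start of a phase at a line of `U`. -/
def T_BAS : Prop := ∀ (V : Type) [Fintype V] [DecidableEq V] (M r l κ S : ℕ)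
    (I : Inst V M l) (A : Fin S → Set (V → Bool)) (W : Fin S → Finset V) (o : Fin S → V → Bool)
    (P : Fin S → Finset (Fin S)) (z0 : V → Bool) (v0 v u : Fin S) (j : ℕ)
    (U : Finset (Fin S)) (z : V → Bool) (J : Finset (Fin M)),
  State I.sc I.vio r κ A W o P v0 z0 j v U z J → u ∈ U → z ∈ A u →
  Base I.sc I.vio r A W o u z

/-- RES: at a light line the assignment can be reset. -/
def T_RES : Prop := ∀ (V : Type) [Fintype V] [DecidableEq V] (M p r l t f s S : ℕ)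
    (I : Inst V M l) (A : Fin S → Set (V → Bool)) (W : Fin S → Finset V) (o : Fin S → V → Bool)
    (P : Fin S → Finset (Fin S)) (zs z : V → Bool) (v : Fin S),
  (∀ v, ∀ z ∈ A v, ∀ z' : V → Bool, (∀ x ∈ W v, z' x = z x ∨ z' x = o v x) → z' ∈ A v) →
  Good I.sc r p t f W o P zs → dis z zs ≤ f → Base I.sc I.vio r A W o v z → (W v).card ≤ s →
  ∃ z', Base I.sc I.vio r A W o v z' ∧ dis z' zs ≤ s + r * p

/-- LEA: a state never sits at a line which follows from few clauses. -/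
def T_LEA : Prop := ∀ (V : Type) [Fintype V] [DecidableEq V] (M p r l q S : ℕ)
    (I : Inst V M l) (F : Finset (Clause V)) (A : Fin S → Set (V → Bool))
    (W : Fin S → Finset V) (o : Fin S → V → Bool)
    (P : Fin S → Finset (Fin S)) (z0 : V → Bool) (v0 v : Fin S) (j : ℕ)
    (U : Finset (Fin S)) (z : V → Bool) (J : Finset (Fin M)) (Q : Finset (Clause V)),
  E5 I.sc p r l → 1 ≤ l → 2 * l ≤ r → q ≤ p →
  (∀ v, ∀ z ∈ A v, ∀ z' : V → Bool, (∀ x ∈ W v, z' x = z x ∨ z' x = o v x) → z' ∈ A v) →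
  (∀ C ∈ F, ∃ c, ∀ z, Falsified C z → I.vio c z) →
  State I.sc I.vio r (kap r l) A W o P v0 z0 j v U z J → Q ⊆ F → Q.card ≤ q →
  ¬ ∀ z ∈ A v, ∃ C ∈ Q, Falsified C z

/-- ADV: in a refutation no assignment is good. -/
def T_ADV : Prop := ∀ (V : Type) [Fintype V] [DecidableEq V] (M p r l t m B q s D S : ℕ)
    (I : Inst V M l) (F : Finset (Clause V)),
  E5 I.sc p r l → (∀ c, r ≤ (I.sc c).card) → 1 ≤ l → 2 * l ≤ r → q ≤ p → 1 ≤ t → D < m * t →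
  (∀ C ∈ F, ∃ c, ∀ z, Falsified C z → I.vio c z) → ∀ R : URef F B q s D S,
  ∃ (P : Fin S → Finset (Fin S)) (W : Fin S → Finset V), (∀ v, (P v).card ≤ B) ∧
    ∀ zs, ¬ Good I.sc r p t (s + r * p + m * (kap r l * p)) W R.o P zs

/-- PSC: number of paths. -/
def T_PSC : Prop := ∀ (S B j : ℕ) (P : Fin S → Finset (Fin S)) (v0 : Fin S),
  (∀ v, (P v).card ≤ B) →
  (PS P v0 j).card ≤ B ^ j ∧ ∀ y ∈ PS P v0 j, y.2.card ≤ (j + 1) * (B + 1)

/-- SC: static count. -/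
def T_SC : Prop := ∀ (V : Type) [Fintype V] [DecidableEq V] (M p e r k S : ℕ)
    (sc : Fin M → Finset V) (W : Fin S → Finset V) (o : Fin S → V → Bool) (U : Finset (Fin S)),
  E1 sc p e → (∀ c, (sc c).card = k) → ∀ Z : Finset (V → Bool),
  (∀ z ∈ Z, ∃ J, Cov sc r W o U z J ∧ p ≤ J.card) →
  Z.card ≤ (M * U.card * Cr k r ^ 2) ^ p * 2 ^ e

/-- CNT: the final count. -/
def T_CNT : Prop := ∀ (V : Type) [Fintype V] [DecidableEq V] (M p e r k t f B S Bl : ℕ)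
    (sc : Fin M → Finset V) (W : Fin S → Finset V) (o : Fin S → V → Bool)
    (P : Fin S → Finset (Fin S)),
  E1 sc p e → (∀ c, (sc c).card = k) → (∀ v, (P v).card ≤ B) → 1 ≤ B →
  (∀ z0 : V → Bool, (Finset.univ.filter (fun zs => dis z0 zs ≤ f)).card ≤ Bl) →
  (∀ zs, ¬ Good sc r p t f W o P zs) →
  2 ^ Fintype.card V ≤
    Bl * (S * ((t + 1) * B ^ t) * ((M * ((t + 1) * (B + 1)) * Cr k r ^ 2) ^ p * 2 ^ e))

/-- BAL: the size of a Hamming ball. -/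
def T_BAL : Prop := ∀ (V : Type) [Fintype V] [DecidableEq V] (f Q : ℕ) (z0 : V → Bool),
  1 ≤ Q → (Finset.univ.filter (fun zs => dis z0 zs ≤ f)).card * Q ^ Fintype.card V ≤
    Q ^ f * (Q + 1) ^ Fintype.card V

/-- HC: a colouring of the cube in which close points get different colours. -/
def T_HC : Prop := ∀ k d : ℕ, ∃ h : (Fin k → Bool) → Fin ((k + 1) ^ d),
  ∀ x y, x ≠ y → hammingDist x y ≤ d → h x ≠ h y

/-- The scopes given by embeddings. -/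
def scp {n M k : ℕ} (τ : Fin M → (Fin k ↪ Fin n)) (c : Fin M) : Finset (Fin n) :=
  Finset.univ.map (τ c)

open Classical in
/-- XA: most families of scopes satisfy (E1). -/
def T_XA : Prop := ∀ n M k p e : ℕ,
  4 * (2 ^ n * M ^ p * (n - e) ^ (k * p)) ≤ n ^ (k * p) →
  4 * (Finset.univ.filter (fun τ : Fin M → (Fin k ↪ Fin n) => ¬ E1 (scp τ) p e)).card ≤
    Fintype.card (Fin M → (Fin k ↪ Fin n))

open Classical in
/-- XP: probability that the scopes in `N` meet `X` in many places. -/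
def T_XP : Prop := ∀ (n M k r l : ℕ) (N : Finset (Fin M)) (X : Finset (Fin n)),
  (Finset.univ.filter (fun τ : Fin M → (Fin k ↪ Fin n) =>
    (∀ c ∈ N, r ≤ (scp τ c ∩ X).card) ∧ l * X.card < ∑ c ∈ N, (scp τ c ∩ X).card)).card *
      n ^ (max (r * N.card) (l * X.card)) ≤
    2 ^ (k * N.card) * X.card ^ (max (r * N.card) (l * X.card)) *
      Fintype.card (Fin M → (Fin k ↪ Fin n))

/-- XN: numbers for (E5). -/
def T_XN : Prop := ∀ n M k r l d N x Y : ℕ, 1 ≤ r → 2 ≤ l → k ≤ d * r → M ≤ 2 ^ k → 1 ≤ N →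
  Y = max (r * N) (l * x) → 2 ^ (4 * d + 6) * x ≤ n →
  M ^ N * n.choose x * 2 ^ (k * N) * x ^ Y * 4 ^ r ≤ n ^ Y

open Classical in
/-- XB: most families of scopes satisfy (E5). -/
def T_XB : Prop := ∀ n M k p r l d : ℕ, 1 ≤ r → 2 ≤ l → k ≤ d * r → M ≤ 2 ^ k →
  2 ^ (4 * d + 6) * (k * p) ≤ l * n → 4 * ((n + 1) * (p + 1)) ≤ 4 ^ r →
  4 * (Finset.univ.filter (fun τ : Fin M → (Fin k ↪ Fin n) => ¬ E5 (scp τ) p r l)).card ≤
    Fintype.card (Fin M → (Fin k ↪ Fin n))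

/-- XU: the colours can be chosen such that every assignment violates a constraint. -/
def T_XU : Prop := ∀ (n M k L : ℕ) (τ : Fin M → (Fin k ↪ Fin n))
    (h : (Fin k → Bool) → Fin L), 2 ^ n * (L - 1) ^ M < L ^ M →
  ∃ b : Fin M → Fin L, ∀ z : Fin n → Bool, ∃ c, h (z ∘ τ c) = b c

/-- FRM: the formula. -/
def T_FRM : Prop := ∀ (n M k L l : ℕ) (τ : Fin M → (Fin k ↪ Fin n))
    (h : (Fin k → Bool) → Fin L) (b : Fin M → Fin L),
  (∀ x y, x ≠ y → hammingDist x y ≤ 2 * l → h x ≠ h y) →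
  (∀ z : Fin n → Bool, ∃ c, h (z ∘ τ c) = b c) →
  ∃ (I : Inst (Fin n) M l) (F : Finset (Clause (Fin n))),
    I.sc = scp τ ∧ F.card ≤ M * 2 ^ k ∧ (∀ C ∈ F, C.card = k) ∧
    (∀ z, ∃ C ∈ F, Falsified C z) ∧ ∀ C ∈ F, ∃ c, ∀ z, Falsified C z → I.vio c z

/-- AB: the abstract theorem. -/
def T_AB : Prop := ∀ n M k p e r l d : ℕ, 1 ≤ n → 1 ≤ r → r ≤ k → 2 ≤ l → 2 * l ≤ r →
  k ≤ d * r → M ≤ 2 ^ k → k ≤ n →
  4 * (2 ^ n * M ^ p * (n - e) ^ (k * p)) ≤ n ^ (k * p) →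
  2 ^ (4 * d + 6) * (k * p) ≤ l * n → 4 * ((n + 1) * (p + 1)) ≤ 4 ^ r →
  2 ^ n * ((k + 1) ^ (2 * l) - 1) ^ M < ((k + 1) ^ (2 * l)) ^ M →
  ∃ F : Finset (Clause (Fin n)), F.card ≤ M * 2 ^ k ∧ (∀ C ∈ F, C.card = k) ∧
    (∀ z, ∃ C ∈ F, Falsified C z) ∧
    ∀ t m B q s D S Bl : ℕ, 1 ≤ B → q ≤ p → 1 ≤ t → D < m * t →
      (∀ z0 : Fin n → Bool, (Finset.univ.filter
        (fun zs => dis z0 zs ≤ s + r * p + m * (kap r l * p))).card ≤ Bl) →
      Nonempty (URef F B q s D S) →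
      2 ^ n ≤ Bl * (S * ((t + 1) * B ^ t) *
        ((M * ((t + 1) * (B + 1)) * Cr k r ^ 2) ^ p * 2 ^ e))

/-- The main theorem. -/
def T_MAIN : Prop := ∀ ε : ℝ, 0 < ε → ∃ K n0 : ℕ, ∀ n, n0 ≤ n → ∀ w : ℕ,
  K * Nat.log 2 n ≤ w → K * w ≤ n →
  ∃ F : Finset (Clause (Fin n)), F.card ≤ 2 ^ (2 * w) ∧ (∀ C ∈ F, C.card = w) ∧
    (∀ z, ∃ C ∈ F, Falsified C z) ∧
    ∀ B q s D S : ℕ, 2 ≤ B → q * w ≤ n → K * s ≤ n → K * Nat.log 2 B ≤ w →
      K * (D * Nat.log 2 B * Nat.log 2 w) ≤ n * w →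
      Nonempty (URef F B q s D S) → (2 : ℝ) ^ ((1 - ε) * n) ≤ S

end Pool.Agent.H78.UN
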